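import Pool.Agent.E8helper68.PJ.Small
import Pool.Agent.TH823.EL.Engine
import Pool.Agent.H426R3.CP.BT

set_option autoImplicit false

/-!
# From the logarithmic average over the scales and the dilates to every scale and every dilate
-/

open Finset MeasureTheory
open scoped Real
open Pool.Agent.Helper112

namespace Pool.Agent.E8helper68.PJ

open Pool.Agent.TH823.PS Pool.Agent.W66 Pool.Agent.W66L

/-- the coefficients after the multiplier, for the dilate `a` -/
noncomputable def gcf (P S : Finset ℕ) (l α : ℕ → ℂ) (a k : ℕ) : ℂ := (Dl P S k : ℂ) * (FF l α a k / k)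

lemma FF_mul {l α : ℕ → ℂ} (hl : LF l) {p : ℕ} (hp : p.Prime) (a n : ℕ) :
    FF l α a (p * n) = -FF l α (p * a) n := by
  unfold FF
  rw [hl.mul p n hp, show a * (p * n) = p * a * n by ring]
  ring

lemma FF_mod {M : ℕ} {ρ : ℝ} {l α : ℕ → ℂ} (hα : Al M ρ α) (a n : ℕ) : FF l α (a % M) n = FF l α a n := by
  unfold FF
  rw [← hα.per (a % M * n), Nat.mod_mul_mod, hα.per]

/-- the relation for the twisted sums -/
lemma gcf_tw {l α : ℕ → ℂ} (hl : LF l) {P S K : Finset ℕ}
    (hP : ∀ p ∈ P, p.Prime) (hS : ∀ s ∈ S, 0 < s) (hSK : ∀ s ∈ S, s ∈ K) (hK : ∀ s ∈ K, 0 < s)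
    (hPK : ∀ s ∈ S, ∀ p ∈ P, p * s ∈ K) (h x : ℝ) (a q b : ℕ) :
    ggC h K (fun k => gcf P S l α a k * ee (k * b / q)) x =
      (WP P : ℂ) * ggC h S (fun n => FF l α a n / n * ee (n * b / q)) x +
        ∑ p ∈ P, 1 / (p : ℂ) * ggC h S (fun n => FF l α (p * a) n / n * ee (n * ((p * b : ℕ) : ℝ) / q)) (x - Real.log p) := by
  have e0 : ∀ k ∈ K, gcf P S l α a k * ee (k * b / q) =
      gco (WP P) ∅ (fun _ => 0) S (fun n => FF l α a n / n * ee (n * b / q)) k +
        ∑ p ∈ P, gco 0 {p} (fun p => -(1 / (p : ℂ))) S (fun n => FF l α (p * a) n / n * ee (n * ((p * b : ℕ) : ℝ) / q)) k := by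
    intro k hk
    have hkc : (k : ℂ) ≠ 0 := by exact_mod_cast (hK k hk).ne'
    unfold gcf Dl gco
    push_cast
    rw [sub_mul, sub_mul, sum_mul, sum_mul, sum_empty, sub_zero, sub_eq_add_neg, ← sum_neg_distrib]
    congr 1
    · split_ifs
      · ring
      · simp
    · apply sum_congr rfl
      intro p hp
      rw [sum_singleton]
      have e1 : (if k ∈ S then (0 : ℂ) * (FF l α (p * a) k / k * ee (k * ((p * b : ℕ) : ℝ) / q)) else 0) = 0 := by
        split_ifs <;> simp
      push_cast at e1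
      rw [e1, zero_sub]
      congr 1
      by_cases h2 : p ∣ k ∧ k / p ∈ S
      · rw [if_pos h2, if_pos h2]
        obtain ⟨m, rfl⟩ := h2.1
        have hp0 := (hP p hp).pos
        rw [Nat.mul_div_cancel_left _ hp0, FF_mul hl (hP p hp)]
        have hp1 : (p : ℂ) ≠ 0 := by exact_mod_cast hp0.ne'
        have hm1 : (m : ℂ) ≠ 0 := by
          have : m ≠ 0 := by
            rintro rfl
            have := hK _ hk
            simp at this
          exact_mod_cast this
        have h3 : (((p * m : ℕ) : ℝ)) * b / q = (m : ℝ) * ((p : ℝ) * b) / q := by push_cast; ring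
        rw [h3]
        push_cast
        field_simp
      · rw [if_neg h2, if_neg h2]
        simp
  have e1 : ggC h K (fun k => gcf P S l α a k * ee (k * b / q)) x = ggC h K (fun k =>
      gco (WP P) ∅ (fun _ => 0) S (fun n => FF l α a n / n * ee (n * b / q)) k +
        ∑ p ∈ P, gco 0 {p} (fun p => -(1 / (p : ℂ))) S (fun n => FF l α (p * a) n / n * ee (n * ((p * b : ℕ) : ℝ) / q)) k) x := by
    unfold ggC
    exact sum_congr rfl fun k hk => by
      beta_reduce
      rw [e0 k hk]
  rw [e1, Pool.Agent.TH823.EL.ggC_add, Pool.Agent.TH823.EL.ggC_sum,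
    gco_eq _ (fun p hp => absurd hp (notMem_empty p)) hS hSK
    (fun _ _ p hp => absurd hp (notMem_empty p)), sum_empty, sub_zero]
  congr 1
  apply sum_congr rfl
  intro p hp
  rw [gco_eq _ (fun r hr => by rw [mem_singleton] at hr; rw [hr]; exact (hP p hp).pos) hS hSK
    (fun s hs r hr => by rw [mem_singleton] at hr; rw [hr]; exact hPK s hs p hp), sum_singleton]
  simp

/-- the pointwise inequality between the scales -/
lemma step {l α : ℕ → ℂ} (hl : LF l) {F : ℕ} {P S K : Finset ℕ}
    (hP : ∀ p ∈ P, p.Prime ∧ F < p) (hS : ∀ s ∈ S, 0 < s) (hSK : ∀ s ∈ S, s ∈ K) (hK : ∀ s ∈ K, 0 < s)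
    (hPK : ∀ s ∈ S, ∀ p ∈ P, p * s ∈ K) (h x : ℝ) (a : ℕ) :
    WP P ^ 2 * EE h F S (fun n => FF l α a n / n) x ≤ 2 * EE h F K (gcf P S l α a) x +
      2 * WP P * ∑ p ∈ P, 1 / (p : ℝ) * EE h F S (fun n => FF l α (p * a) n / n) (x - Real.log p) := by
  have hW0 := WP_nonneg P
  have hpt : ∀ q b : ℕ, WP P ^ 2 * ‖ggC h S (fun n => FF l α a n / n * ee (n * b / q)) x‖ ^ 2 ≤
      2 * ‖ggC h K (fun k => gcf P S l α a k * ee (k * b / q)) x‖ ^ 2 +
      2 * WP P * ∑ p ∈ P, 1 / (p : ℝ) *
        ‖ggC h S (fun n => FF l α (p * a) n / n * ee (n * ((p * b : ℕ) : ℝ) / q)) (x - Real.log p)‖ ^ 2 := by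
    intro q b
    have h1 := gcf_tw (α := α) hl (fun p hp => (hP p hp).1) hS hSK hK hPK h x a q b
    set T := ggC h S (fun n => FF l α a n / n * ee (n * b / q)) x
    set G := ggC h K (fun k => gcf P S l α a k * ee (k * b / q)) x
    set U : ℕ → ℂ := fun p => ggC h S (fun n => FF l α (p * a) n / n * ee (n * ((p * b : ℕ) : ℝ) / q)) (x - Real.log p) with hU
    have h2 : (WP P : ℂ) * T = G - ∑ p ∈ P, 1 / (p : ℂ) * U p := by rw [h1]; ring
    have h3 : WP P * ‖T‖ ≤ ‖G‖ + ∑ p ∈ P, 1 / (p : ℝ) * ‖U p‖ := by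
      calc WP P * ‖T‖ = ‖(WP P : ℂ) * T‖ := by rw [norm_mul, Complex.norm_real, Real.norm_of_nonneg hW0]
        _ ≤ ‖G‖ + ‖∑ p ∈ P, 1 / (p : ℂ) * U p‖ := by rw [h2]; exact norm_sub_le _ _
        _ ≤ _ := by
          gcongr
          refine (norm_sum_le _ _).trans (sum_le_sum fun p hp => ?_)
          rw [norm_mul, norm_div, norm_one, Complex.norm_natCast]
    have h4 : (∑ p ∈ P, 1 / (p : ℝ) * ‖U p‖) ^ 2 ≤ WP P * ∑ p ∈ P, 1 / (p : ℝ) * ‖U p‖ ^ 2 := by
      have h5 := sum_mul_sq_le_sq_mul_sq P (fun p => √(1 / (p : ℝ))) (fun p => √(1 / (p : ℝ)) * ‖U p‖)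
      have h6 : ∀ p : ℕ, √(1 / (p : ℝ)) * (√(1 / (p : ℝ)) * ‖U p‖) = 1 / (p : ℝ) * ‖U p‖ := by
        intro p
        rw [← mul_assoc, Real.mul_self_sqrt (by positivity)]
      have h7 : ∀ p : ℕ, √(1 / (p : ℝ)) ^ 2 = 1 / (p : ℝ) := fun p => Real.sq_sqrt (by positivity)
      simp only [h6, mul_pow, h7] at h5
      exact h5
    have h5 : (WP P * ‖T‖) ^ 2 ≤ (‖G‖ + ∑ p ∈ P, 1 / (p : ℝ) * ‖U p‖) ^ 2 :=
      pow_le_pow_left₀ (by positivity) h3 2
    have h6 : (‖G‖ + ∑ p ∈ P, 1 / (p : ℝ) * ‖U p‖) ^ 2 ≤ 2 * ‖G‖ ^ 2 + 2 * (∑ p ∈ P, 1 / (p : ℝ) * ‖U p‖) ^ 2 := by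
      nlinarith [sq_nonneg (‖G‖ - ∑ p ∈ P, 1 / (p : ℝ) * ‖U p‖)]
    rw [mul_pow] at h5
    linarith
  unfold EE
  have h1 : ∀ q ∈ Icc 1 F, WP P ^ 2 * ∑ b ∈ rr q, ‖ggC h S (fun n => FF l α a n / n * ee (n * b / q)) x‖ ^ 2 ≤
      2 * ∑ b ∈ rr q, ‖ggC h K (fun k => gcf P S l α a k * ee (k * b / q)) x‖ ^ 2 +
      2 * WP P * ∑ p ∈ P, 1 / (p : ℝ) *
        ∑ b ∈ rr q, ‖ggC h S (fun n => FF l α (p * a) n / n * ee (n * b / q)) (x - Real.log p)‖ ^ 2 := by
    intro q hq
    rw [mem_Icc] at hq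
    have h2 := sum_le_sum fun b (_ : b ∈ rr q) => hpt q b
    rw [← mul_sum, sum_add_distrib, ← mul_sum, ← mul_sum, sum_comm] at h2
    refine h2.trans (le_of_eq ?_)
    congr 2
    apply sum_congr rfl
    intro p hp
    rw [← mul_sum]
    congr 1
    have hcop : p.Coprime q := by
      rw [Nat.Prime.coprime_iff_not_dvd (hP p hp).1]
      intro hd
      have := Nat.le_of_dvd (by omega) hd
      have := (hP p hp).2
      omega
    exact perm_rr' (by omega) hcop
      (fun m => ‖ggC h S (fun n => FF l α (p * a) n / n * ee (n * (m : ℝ) / q)) (x - Real.log p)‖ ^ 2) (fun m => by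
        simp only [ee_mod (by omega : 0 < q)])
  calc _ = ∑ q ∈ Icc 1 F, WP P ^ 2 * ∑ b ∈ rr q, ‖ggC h S (fun n => FF l α a n / n * ee (n * b / q)) x‖ ^ 2 := by
        rw [mul_sum]
    _ ≤ _ := sum_le_sum h1
    _ = _ := by
      rw [sum_add_distrib, ← mul_sum, ← mul_sum, sum_comm]
      congr 2
      apply sum_congr rfl
      intro p _
      rw [← mul_sum]

/-- Brun-Titchmarsh -/
lemma bt_count {C : ℝ} (hC1 : 1 ≤ C) (hC : Pool.Agent.H426R3.CP.BTC C) {M y z : ℕ} (hM : 0 < M) (hy : 2 ≤ y) (hMy : M ^ 2 ≤ y)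
    {a : ℕ} (ha : a.Coprime M) (b : ℕ) (t : ℝ) :
    (((PP y z).filter (fun p : ℕ => Real.log p ≤ t ∧ (p * a) % M = b)).card : ℝ) * (M.totient * Real.log y) ≤
      4 * C * Real.exp t := by
  set S := (PP y z).filter (fun p : ℕ => Real.log p ≤ t ∧ (p * a) % M = b) with hS
  rcases S.eq_empty_or_nonempty with h0 | ⟨p₀, hp₀⟩
  · rw [h0, card_empty, Nat.cast_zero, zero_mul]
    positivity
  have hMr : (0 : ℝ) < M := by exact_mod_cast hM
  have hyr : (0 : ℝ) < y := by exact_mod_cast (by omega : 0 < y)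
  have hφ : (0 : ℝ) < M.totient := by exact_mod_cast Nat.totient_pos.2 hM
  have hexp : ∀ p ∈ S, (p : ℝ) ≤ Real.exp t := by
    intro p hp
    rw [hS, mem_filter, mem_PP] at hp
    have hp0 : (0 : ℝ) < p := by exact_mod_cast hp.1.2.pos
    rw [← Real.exp_log hp0]
    exact Real.exp_le_exp.2 hp.2.1
  have hyt : (y : ℝ) ≤ Real.exp t := by
    refine le_trans ?_ (hexp p₀ hp₀)
    rw [hS, mem_filter, mem_PP] at hp₀
    exact_mod_cast hp₀.1.1.1.le
  set N := ⌊Real.exp t / M⌋₊ + 1 with hN
  have hM2 : (M : ℝ) ^ 2 ≤ y := by exact_mod_cast hMy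
  have h1M : (1 : ℝ) ≤ M := by exact_mod_cast hM
  have hge : (M : ℝ) ≤ Real.exp t / M := by
    rw [le_div_iff₀ hMr]
    nlinarith
  have hge1 : 1 ≤ Real.exp t / M := h1M.trans hge
  have hN2 : 2 ≤ N := by
    have : 1 ≤ ⌊Real.exp t / M⌋₊ := Nat.le_floor (by push_cast; exact hge1)
    omega
  have hNle : (N : ℝ) ≤ 2 * (Real.exp t / M) := by
    rw [hN]
    push_cast
    have := Nat.floor_le (by linarith : 0 ≤ Real.exp t / M)
    linarith
  have hNge : Real.exp t / M ≤ N := by
    rw [hN]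
    push_cast
    exact (Nat.lt_floor_add_one _).le
  have hlogN : Real.log y ≤ 2 * Real.log N := by
    have h1 : (y : ℝ) ≤ (N : ℝ) ^ 2 := by
      have h2 : Real.exp t / M * (Real.exp t / M) ≤ (N : ℝ) ^ 2 := by
        rw [sq]
        exact mul_le_mul hNge hNge (by linarith) (by linarith)
      refine le_trans ?_ h2
      have h3 : (y : ℝ) * (M : ℝ) ^ 2 ≤ Real.exp t * Real.exp t := mul_le_mul hyt (hM2.trans hyt) (by positivity) (by positivity)
      rw [div_mul_div_comm, le_div_iff₀ (by positivity)]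
      nlinarith
    have h2 := Real.log_le_log hyr h1
    rwa [Real.log_pow] at h2
  have hlogy : 0 < Real.log y := Real.log_pos (by exact_mod_cast (by omega : 1 < y))
  have hlogN0 : 0 < Real.log N := by linarith
  set c := p₀ % M with hc
  have hcount : (S.card : ℝ) ≤ (((range N).filter (fun t => (c + t * M).Prime)).card : ℝ) := by
    apply Nat.cast_le.2
    apply card_le_card_of_injOn (fun p => p / M)
    · intro p hp
      have hp' := hp
      rw [mem_coe, hS, mem_filter, mem_PP] at hp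
      rw [hS, mem_filter, mem_PP] at hp₀
      have hmod : p % M = c := by
        have h1 : p * a ≡ p₀ * a [MOD M] := by
          unfold Nat.ModEq
          rw [hp.2.2, hp₀.2.2]
        exact Nat.ModEq.cancel_right_of_coprime (by rw [Nat.gcd_comm]; exact ha) h1
      rw [mem_coe, mem_filter, mem_range]
      constructor
      · rw [hN, Nat.lt_succ_iff]
        apply Nat.le_floor
        rw [le_div_iff₀ hMr]
        have h2 := hexp p hp'
        have h3 : ((p / M : ℕ) : ℝ) * M ≤ p := by exact_mod_cast Nat.div_mul_le_self p M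
        linarith
      · have h2 : c + p / M * M = p := by rw [← hmod, mul_comm]; exact Nat.mod_add_div p M
        rw [h2]
        exact hp.1.2
    · intro p hp p' hp' hpp
      rw [mem_coe, hS, mem_filter, mem_PP] at hp hp'
      have hmod : p ≡ p' [MOD M] := by
        have h1 : p * a ≡ p' * a [MOD M] := by
          unfold Nat.ModEq
          rw [hp.2.2, hp'.2.2]
        exact Nat.ModEq.cancel_right_of_coprime (by rw [Nat.gcd_comm]; exact ha) h1
      simp only at hpp
      rw [← Nat.mod_add_div p M, ← Nat.mod_add_div p' M, hpp, (hmod : p % M = p' % M)]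
  have hBT := hC c M N hM hN2
  have h1 : (S.card : ℝ) ≤ C * (M / M.totient) * (2 * (Real.exp t / M)) / Real.log N := by
    refine hcount.trans (hBT.trans ?_)
    apply div_le_div_of_nonneg_right _ hlogN0.le
    exact mul_le_mul_of_nonneg_left hNle (by positivity)
  rw [le_div_iff₀ hlogN0] at h1
  have e1 : C * ((M : ℝ) / M.totient) * (2 * (Real.exp t / M)) = 2 * C * Real.exp t / M.totient := by
    field_simp
  rw [e1, le_div_iff₀ hφ] at h1
  have hS0 : (0 : ℝ) ≤ (S.card : ℝ) * M.totient := by positivity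
  calc (S.card : ℝ) * (M.totient * Real.log y) = (S.card : ℝ) * M.totient * Real.log y := by ring
    _ ≤ (S.card : ℝ) * M.totient * (2 * Real.log N) := mul_le_mul_of_nonneg_left hlogN hS0
    _ = 2 * (S.card * Real.log N * M.totient) := by ring
    _ ≤ 2 * (2 * C * Real.exp t) := by linarith
    _ = _ := by ring

/-- the averages over the translates -/
lemma shift_fam {C : ℝ} (hC1 : 1 ≤ C) (hC : Pool.Agent.H426R3.CP.BTC C) {M y z : ℕ} (hM : 0 < M) (hy : 2 ≤ y) (hMy : M ^ 2 ≤ y)
    (hPM : ∀ p ∈ PP y z, p.Coprime M) {a : ℕ} (ha : a.Coprime M)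
    {G : ℕ → ℝ → ℝ} (hG : ∀ b, Integrable (G b)) (h0 : ∀ b x, 0 ≤ G b x) (hper : ∀ b, G (b % M) = G b) (s : ℝ) :
    IntegrableOn (fun x => Real.exp x * ∑ p ∈ PP y z, 1 / (p : ℝ) * G (p * a) (x - Real.log p)) (Set.Iic s) ∧
    ∫ x in Set.Iic s, Real.exp x * ∑ p ∈ PP y z, 1 / (p : ℝ) * G (p * a) (x - Real.log p) ≤
      4 * C / (M.totient * Real.log y) * Real.exp s * ∑ b ∈ rr M, ∫ x, G b x := by
  have hlogy : 0 < Real.log y := Real.log_pos (by exact_mod_cast (by omega : 1 < y))
  have hφ : (0 : ℝ) < M.totient := by exact_mod_cast Nat.totient_pos.2 hM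
  have hb : ∀ (b : ℕ) (ℓ : ℝ), Integrable (fun x => (if x ≤ s then Real.exp x else 0) * G b (x - ℓ)) := by
    intro b ℓ
    refine ((hG b).comp_sub_right ℓ).bdd_mul (c := Real.exp s) ?_ (Filter.Eventually.of_forall fun x => ?_)
    · apply Measurable.aestronglyMeasurable
      exact Measurable.ite measurableSet_Iic Real.measurable_exp measurable_const
    · split_ifs with h
      · rw [Real.norm_of_nonneg (Real.exp_pos x).le]
        exact Real.exp_le_exp.2 h
      · rw [norm_zero]; exact (Real.exp_pos s).le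
  have e1 : ∀ x : ℝ, (Set.Iic s).indicator (fun x => Real.exp x * ∑ p ∈ PP y z, 1 / (p : ℝ) * G (p * a) (x - Real.log p)) x =
      ∑ p ∈ PP y z, 1 / (p : ℝ) * ((if x ≤ s then Real.exp x else 0) * G (p * a) (x - Real.log p)) := by
    intro x
    by_cases h : x ≤ s
    · rw [Set.indicator_of_mem (show x ∈ Set.Iic s from h), if_pos h, mul_sum]
      exact sum_congr rfl fun p _ => by ring
    · rw [Set.indicator_of_notMem (show x ∉ Set.Iic s from h), if_neg h]
      simp
  have hint : Integrable (fun x => ∑ p ∈ PP y z, 1 / (p : ℝ) *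
      ((if x ≤ s then Real.exp x else 0) * G (p * a) (x - Real.log p))) :=
    integrable_finsetSum _ fun p _ => (hb _ _).const_mul _
  constructor
  · rw [← integrable_indicator_iff measurableSet_Iic]
    exact hint.congr (Filter.Eventually.of_forall fun x => (e1 x).symm)
  · rw [← integral_indicator measurableSet_Iic]
    simp only [e1]
    rw [integral_finsetSum _ fun p _ => (hb _ _).const_mul _]
    have e2 : ∀ p ∈ PP y z, ∫ x, 1 / (p : ℝ) * ((if x ≤ s then Real.exp x else 0) * G (p * a) (x - Real.log p)) =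
        ∫ u, (if Real.log p ≤ s - u then Real.exp u else 0) * G (p * a) u := by
      intro p hp
      rw [mem_PP] at hp
      have hp0 : (0 : ℝ) < p := by exact_mod_cast hp.2.pos
      rw [← integral_sub_right_eq_self (fun u => (if Real.log p ≤ s - u then Real.exp u else 0) * G (p * a) u) (Real.log p)]
      congr 1
      ext x
      by_cases h : x ≤ s
      · rw [if_pos h, if_pos (by linarith), Real.exp_sub, Real.exp_log hp0]
        ring
      · rw [if_neg h, if_neg (by linarith)]
        ring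
    rw [sum_congr rfl e2]
    have hb2 : ∀ p ∈ PP y z, Integrable (fun u => (if Real.log p ≤ s - u then Real.exp u else 0) * G (p * a) u) := by
      intro p _
      refine (hG _).bdd_mul (c := Real.exp (s - Real.log p)) ?_ (Filter.Eventually.of_forall fun x => ?_)
      · apply Measurable.aestronglyMeasurable
        have hm : MeasurableSet {u : ℝ | Real.log p ≤ s - u} :=
          measurableSet_le measurable_const (by fun_prop)
        exact Measurable.ite hm Real.measurable_exp measurable_const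
      · split_ifs with h
        · rw [Real.norm_of_nonneg (Real.exp_pos x).le]
          exact Real.exp_le_exp.2 (by linarith)
        · rw [norm_zero]; exact (Real.exp_pos _).le
    rw [← integral_finsetSum _ hb2, ← integral_finsetSum _ (fun b _ => hG b), ← integral_const_mul]
    apply integral_mono (integrable_finsetSum _ hb2) ((integrable_finsetSum _ fun b _ => hG b).const_mul _)
    intro u
    simp only
    have hmaps : ∀ p ∈ PP y z, (p * a) % M ∈ rr M := by
      intro p hp
      rw [mem_rr]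
      refine ⟨Nat.mod_lt _ hM, ?_⟩
      have h1 : (p * a).Coprime M := Nat.Coprime.mul_left (hPM p hp) ha
      unfold Nat.Coprime at h1 ⊢
      rw [Nat.gcd_comm, Nat.gcd_rec] at h1
      exact h1
    rw [← sum_fiberwise_of_maps_to hmaps, mul_sum]
    apply sum_le_sum
    intro b _
    have e3 : ∑ p ∈ (PP y z).filter (fun p => (p * a) % M = b),
        (if Real.log p ≤ s - u then Real.exp u else 0) * G (p * a) u =
        (((PP y z).filter (fun p : ℕ => Real.log p ≤ s - u ∧ (p * a) % M = b)).card : ℝ) * Real.exp u * G b u := by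
      have e4 : ∀ p ∈ (PP y z).filter (fun p => (p * a) % M = b),
          (if Real.log p ≤ s - u then Real.exp u else 0) * G (p * a) u =
          if Real.log p ≤ s - u then Real.exp u * G b u else 0 := by
        intro p hp
        rw [mem_filter] at hp
        rw [← hper (p * a), hp.2]
        split_ifs <;> simp
      rw [sum_congr rfl e4, ← sum_filter, filter_filter, sum_const, nsmul_eq_mul, mul_assoc]
      have e5 : (PP y z).filter (fun p => (p * a) % M = b ∧ Real.log p ≤ s - u) =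
          (PP y z).filter (fun p : ℕ => Real.log p ≤ s - u ∧ (p * a) % M = b) :=
        filter_congr fun p _ => and_comm
      rw [e5]
    rw [e3]
    apply mul_le_mul_of_nonneg_right _ (h0 b u)
    have h1 := bt_count hC1 hC (z := z) hM hy hMy ha b (s - u)
    rw [← le_div_iff₀ (by positivity)] at h1
    calc _ ≤ 4 * C * Real.exp (s - u) / (M.totient * Real.log y) * Real.exp u :=
          mul_le_mul_of_nonneg_right h1 (Real.exp_pos u).le
      _ = 4 * C / (M.totient * Real.log y) * (Real.exp (s - u) * Real.exp u) := by ring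
      _ = _ := by rw [← Real.exp_add]; ring_nf

end Pool.Agent.E8helper68.PJ
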