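import Pool.Agent.E8helper68.PJ.Eng

set_option autoImplicit false

/-!
# The energy at every scale
-/

open Finset MeasureTheory
open scoped Real
open Pool.Agent.Helper112

namespace Pool.Agent.E8helper68.PJ

open Pool.Agent.TH823.PS Pool.Agent.W66 Pool.Agent.W66L

/-- the engine, with all the parameters -/
theorem engine {C : ℝ} (hC1 : 1 ≤ C) (hC : Pool.Agent.H426R3.CP.BTC C) {κ η : ℝ} (hκ : 0 < κ) (hκ1 : κ ≤ 1) (hη : 0 < η)
    {E E' b B Q M R : ℕ} (hb : 6 ≤ b) (hE : 1 ≤ E) (hE' : 1 ≤ E') (hM : 1 ≤ M) (hR : 1 ≤ R) (hMR : M * R ≤ Q)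
    (hQ3 : 3 ≤ Q) (hQκ : 10 ^ 5 / κ ≤ (Q : ℝ)) (hW : 10 ^ 6 / κ ≤ WP (PP (Q ^ b) (Q ^ (b * E'))))
    (hηB : 24 * C * η * B ≤ κ * b)
    {ρ : ℝ} {l α : ℕ → ℂ} (hl : LF l) (hα : Al M ρ α)
    (hint : ∑ a ∈ rr M, ∫ x, EE (1 / (Q : ℝ) ^ 3) R (Ioc (Q ^ (13 * E)) (Q ^ B)) (fun n => FF l α a n / n) x ≤
      η * (ρ * M.totient * (B * Real.log Q)))
    {a : ℕ} (ha : a.Coprime M) {s : ℝ} (hs1 : ((13 * E + 2 * (b * E') + 1 : ℕ) : ℝ) * Real.log Q ≤ s)
    (hs2 : s ≤ (B : ℝ) * Real.log Q - 1) :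
    ∫ x in Set.Iic s, Real.exp x *
      EE (1 / (Q : ℝ) ^ 3) R (Ioc (Q ^ (13 * E)) (Q ^ B)) (fun n => FF l α a n / n) x ≤ κ * (ρ * Real.exp s) := by
  have hMQ : M ≤ Q := (Nat.le_mul_of_pos_right M hR).trans hMR
  have hRQ : R ≤ Q := (Nat.le_mul_of_pos_left R hM).trans hMR
  have hM0 : 0 < M := hM
  have hφ : (0 : ℝ) < M.totient := by exact_mod_cast Nat.totient_pos.2 hM0
  have hQr : (3 : ℝ) ≤ Q := by exact_mod_cast hQ3
  have hQ0 : (0 : ℝ) < Q := by linarith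
  have hL := log_ge_one hQ3
  set L := Real.log Q with hLdef
  set M₀ := Q ^ (13 * E) with hM₀
  set N := Q ^ B with hN
  set y' := Q ^ b with hy'
  set z' := Q ^ (b * E') with hz'
  have hb0 : 1 ≤ b := by omega
  have hyz' : y' ≤ z' := Nat.pow_le_pow_right (by omega) (Nat.le_mul_of_pos_right b hE')
  have hQy : Q ≤ y' := Nat.le_self_pow (by omega) Q
  have hz'0 : 0 < z' := by positivity
  have hρ : 0 ≤ ρ := (hα.wt hM0 ha).rho_nonneg hM0
  set P := PP y' z' with hPd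
  set W := WP P with hWdef
  have hW6 : (10 : ℝ) ^ 6 ≤ W := by
    refine le_trans ?_ hW
    rw [le_div_iff₀ hκ]
    nlinarith
  have hWp : 0 < W := by linarith
  set h : ℝ := 1 / (Q : ℝ) ^ 3 with hh
  have h0 : 0 < h := by positivity
  have h1 : h ≤ 1 := by
    rw [hh, div_le_one (by positivity)]
    exact one_le_pow₀ (by linarith)
  set S := Ioc M₀ N with hS
  set K := Ioc M₀ (N * z') with hK
  have hcopM : ∀ p ∈ P, p.Coprime M := by
    intro p hp
    rw [hPd, mem_PP] at hp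
    rw [Nat.Prime.coprime_iff_not_dvd hp.2]
    intro hd
    have := Nat.le_of_dvd hM0 hd
    omega
  set G : ℕ → ℝ → ℝ := fun a => EE h R S (fun n => FF l α a n / n) with hG
  set u : ℕ → ℂ := gcf P S l α a with hu
  set Φ := ∫ x in Set.Iic s, Real.exp x * G a x with hΦ
  set Φg := ∫ x in Set.Iic s, Real.exp x * EE h R K u x with hΦg
  have hGi : ∀ b, Integrable (G b) := fun b => EE_int h0 R S _
  have hG0 : ∀ b x, 0 ≤ G b x := fun b => EE_nonneg h R S _
  have hGper : ∀ b, G (b % M) = G b := by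
    intro b
    rw [hG]
    simp only [FF_mod hα]
  have hMy : M ^ 2 ≤ y' := (Nat.pow_le_pow_left hMQ 2).trans (Nat.pow_le_pow_right (by omega) (by omega))
  have hsh := shift_fam (y := y') (z := z') hC1 hC hM0 (by omega) hMy hcopM ha hGi hG0 hGper s
  have hstep : ∀ x, W ^ 2 * G a x ≤ 2 * EE h R K u x + 2 * W * ∑ p ∈ P, 1 / (p : ℝ) * G (p * a) (x - Real.log p) := by
    intro x
    exact step hl
      (fun p hp => ⟨(mem_PP.1 hp).2, lt_of_le_of_lt (hRQ.trans hQy) (mem_PP.1 hp).1.1⟩)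
      (fun s hs => by rw [hS, mem_Ioc] at hs; omega)
      (fun s hs => by
        rw [hS, mem_Ioc] at hs
        rw [hK, mem_Ioc]
        exact ⟨hs.1, hs.2.trans (Nat.le_mul_of_pos_right N hz'0)⟩)
      (fun s hs => by rw [hK, mem_Ioc] at hs; omega)
      (fun s hs p hp => by
        rw [hS, mem_Ioc] at hs
        rw [hK, mem_Ioc]
        have hp := mem_PP.1 hp
        exact ⟨lt_of_lt_of_le hs.1 (Nat.le_mul_of_pos_left s hp.2.pos),
          (Nat.mul_le_mul hp.1.2 hs.2).trans (le_of_eq (mul_comm _ _))⟩) h x a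
  have hi1 : IntegrableOn (fun x => Real.exp x * G a x) (Set.Iic s) := expEE_int h0 R S _ s
  have hi2 : IntegrableOn (fun x => Real.exp x * EE h R K u x) (Set.Iic s) := expEE_int h0 R K _ s
  have hmain : W ^ 2 * Φ ≤ 2 * Φg + 2 * W * (4 * C / (M.totient * Real.log y') * Real.exp s * ∑ b ∈ rr M, ∫ x, G b x) := by
    calc W ^ 2 * Φ = ∫ x in Set.Iic s, W ^ 2 * (Real.exp x * G a x) := by rw [hΦ, integral_const_mul]
      _ ≤ ∫ x in Set.Iic s, (2 * (Real.exp x * EE h R K u x) +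
            2 * W * (Real.exp x * ∑ p ∈ P, 1 / (p : ℝ) * G (p * a) (x - Real.log p))) := by
          apply integral_mono (hi1.const_mul _) ((hi2.const_mul _).add (hsh.1.const_mul _))
          intro x
          change W ^ 2 * (Real.exp x * G a x) ≤ 2 * (Real.exp x * EE h R K u x) +
            2 * W * (Real.exp x * ∑ p ∈ P, 1 / (p : ℝ) * G (p * a) (x - Real.log p))
          have h3 := mul_le_mul_of_nonneg_left (hstep x) (Real.exp_pos x).le
          linarith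
      _ = 2 * Φg + 2 * W * ∫ x in Set.Iic s, Real.exp x * ∑ p ∈ P, 1 / (p : ℝ) * G (p * a) (x - Real.log p) := by
          rw [integral_add (hi2.const_mul _) (hsh.1.const_mul _), integral_const_mul, integral_const_mul]
      _ ≤ _ := by
          have := mul_le_mul_of_nonneg_left hsh.2 (by positivity : 0 ≤ 2 * W)
          linarith
  -- the second term
  have hes := Real.exp_pos s
  have hlogy : Real.log y' = b * L := by
    rw [hy']; push_cast; rw [Real.log_pow]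
  have hbr : (0 : ℝ) < b := by exact_mod_cast hb0
  have hbL : 0 < (b : ℝ) * L := by positivity
  have ht2 : 2 * W * (4 * C / (M.totient * Real.log y') * Real.exp s * ∑ b ∈ rr M, ∫ x, G b x) ≤
      W * (κ / 3 * (ρ * Real.exp s)) := by
    rw [hlogy]
    have h3 : 4 * C / (M.totient * (b * L)) * Real.exp s * ∑ b ∈ rr M, ∫ x, G b x ≤
        4 * C / (M.totient * (b * L)) * Real.exp s * (η * (ρ * M.totient * (B * L))) :=
      mul_le_mul_of_nonneg_left hint (by positivity)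
    have h4 : 4 * C / (M.totient * (b * L)) * Real.exp s * (η * (ρ * M.totient * (B * L))) =
        4 * C * η * B / b * (ρ * Real.exp s) := by
      field_simp
    rw [h4] at h3
    have h5 : 4 * C * η * B / b ≤ κ / 6 := by
      rw [div_le_iff₀ hbr]
      linarith
    have h6 := mul_le_mul_of_nonneg_right h5 (by positivity : 0 ≤ ρ * Real.exp s)
    calc _ ≤ 2 * W * (κ / 6 * (ρ * Real.exp s)) := mul_le_mul_of_nonneg_left (h3.trans h6) (by positivity)
      _ = _ := by ring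
  -- the first term
  have hlogN : Real.log N = (B : ℝ) * L := by
    rw [hN]; push_cast; rw [Real.log_pow]
  have hNr : (0 : ℝ) < N := by rw [hN]; positivity
  have hz'r : (0 : ℝ) < z' := by exact_mod_cast hz'0
  set X := ⌊Real.exp (s + h)⌋₊ with hX
  have hXN : X ≤ N := by
    have h3 : Real.exp (s + h) ≤ N := by
      rw [← Real.exp_log hNr, hlogN]
      exact Real.exp_le_exp.2 (by linarith)
    have h4 : X ≤ ⌊(N : ℝ)⌋₊ := Nat.floor_mono h3
    rwa [Nat.floor_natCast] at h4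
  have hQs : (Q : ℝ) ^ (13 * E + 2 * (b * E') + 1) ≤ Real.exp s := by
    have h3 : Real.exp (((13 * E + 2 * (b * E') + 1 : ℕ) : ℝ) * L) ≤ Real.exp s := Real.exp_le_exp.2 hs1
    rwa [Real.exp_nat_mul, hLdef, Real.exp_log hQ0] at h3
  have hcardX : M * P.card ^ 2 ≤ X := by
    have h3 : M * P.card ^ 2 ≤ Q ^ (13 * E + 2 * (b * E') + 1) := by
      calc M * P.card ^ 2 ≤ Q * z' ^ 2 := Nat.mul_le_mul hMQ (Nat.pow_le_pow_left (card_PP_le _ _) 2)
        _ = Q ^ (2 * (b * E') + 1) := by rw [hz']; ring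
        _ ≤ _ := Nat.pow_le_pow_right (by omega) (by omega)
    apply Nat.le_floor
    have h4 : ((M * P.card ^ 2 : ℕ) : ℝ) ≤ (Q : ℝ) ^ (13 * E + 2 * (b * E') + 1) := by exact_mod_cast h3
    refine h4.trans (hQs.trans ?_)
    exact Real.exp_le_exp.2 (by linarith)
  have hXe : (X : ℝ) ≤ Real.exp 1 * Real.exp s := by
    have h3 := Nat.floor_le (Real.exp_pos (s + h)).le
    refine h3.trans ?_
    rw [← Real.exp_add]
    exact Real.exp_le_exp.2 (by linarith)
  have hgs := Dl_sum (hα.wt hM0 ha) hM0 (P := P) (fun p hp => (mem_PP.1 hp).2) (fun p hp => (hcopM p hp).symm)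
    (M₀ := M₀) (N := N) (X := X) (z := z') (fun p hp => (mem_PP.1 hp).1.2) hcardX hXN
  rw [← hWdef] at hgs
  have he1 : Real.exp 1 ≤ 2.7182818286 := Real.exp_one_lt_d9.le
  have he0 := Real.exp_pos 1
  have hΦg1 : Φg ≤ 102 * Real.exp 1 * (ρ * (8 * (W + 4) * X + 2 * W ^ 2 * (M₀ * z' + M))) := by
    have h3 := Pool.Agent.TH823.EL.ls_exp (F := R) (K := K) (fun n hn => by rw [hK, mem_Ioc] at hn; omega) u h0 h1 s
    refine h3.trans ?_
    refine le_trans ?_ (mul_le_mul_of_nonneg_left hgs (by positivity))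
    rw [mul_sum]
    have hsub : K.filter (fun n : ℕ => Real.log n ≤ s + h) ⊆ Ioc M₀ X := by
      intro n hn
      rw [mem_filter, hK, mem_Ioc] at hn
      rw [mem_Ioc]
      have hn0 : (0 : ℝ) < n := by exact_mod_cast (by omega : 0 < n)
      refine ⟨by omega, Nat.le_floor ?_⟩
      rw [← Real.exp_log hn0]
      exact Real.exp_le_exp.2 hn.2
    refine (sum_le_sum fun n hn => ?_).trans
      (sum_le_sum_of_subset_of_nonneg hsub fun n _ _ => by positivity)
    rw [mem_filter, hK, mem_Ioc] at hn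
    have hn0 : (0 : ℝ) < n := by exact_mod_cast (by omega : 0 < n)
    have h2 : (1 + (R : ℝ) ^ 2) / h ≤ 2 * n := by
      rw [hh, div_div_eq_mul_div, div_one]
      have h3 : (Q : ℝ) ^ 6 ≤ n := by
        have h4 : Q ^ 6 ≤ n := by
          have : Q ^ 6 ≤ M₀ := Nat.pow_le_pow_right (by omega) (by omega)
          omega
        exact_mod_cast h4
      have h4 : (1 : ℝ) ≤ (Q : ℝ) ^ 2 := one_le_pow₀ (by linarith)
      have h5 : (0 : ℝ) < (Q : ℝ) ^ 3 := by positivity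
      have h9 : (R : ℝ) ^ 2 ≤ (Q : ℝ) ^ 2 := pow_le_pow_left₀ (Nat.cast_nonneg _) (by exact_mod_cast hRQ) 2
      have h6 : (1 + (R : ℝ) ^ 2) * (Q : ℝ) ^ 3 ≤ 2 * (Q : ℝ) ^ 5 := by
        have h8 := mul_le_mul_of_nonneg_right h4 h5.le
        have h10 := mul_le_mul_of_nonneg_right h9 h5.le
        linarith
      have h7 : (Q : ℝ) ^ 5 ≤ (Q : ℝ) ^ 6 := pow_le_pow_right₀ (by linarith) (by norm_num)
      linarith
    have h3 : 6 * (15 * (n : ℝ) + (1 + (R : ℝ) ^ 2) / h) ≤ 102 * n := by linarith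
    have h4 : ‖u n‖ ^ 2 ≤ Dl P S n ^ 2 * (‖α (a * n)‖ ^ 2 / (n : ℝ) ^ 2) := by
      rw [hu]
      unfold gcf
      rw [norm_mul, Complex.norm_real, mul_pow, Real.norm_eq_abs, sq_abs, norm_div, Complex.norm_natCast, div_pow]
      apply mul_le_mul_of_nonneg_left _ (sq_nonneg _)
      exact div_le_div_of_nonneg_right (FF_norm_sq hl a n) (by positivity)
    calc 6 * (15 * (n : ℝ) + (1 + (R : ℝ) ^ 2) / h) * (Real.exp 1 * n) * ‖u n‖ ^ 2 ≤
          102 * n * (Real.exp 1 * n) * (Dl P S n ^ 2 * (‖α (a * n)‖ ^ 2 / (n : ℝ) ^ 2)) := by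
            apply mul_le_mul _ h4 (by positivity) (by positivity)
            exact mul_le_mul_of_nonneg_right h3 (by positivity)
      _ = 102 * Real.exp 1 * (‖α (a * n)‖ ^ 2 * Dl P S n ^ 2) := by field_simp
  -- final numerics
  have hκW : 10 ^ 6 ≤ κ * W := by
    rw [div_le_iff₀ hκ] at hW
    linarith
  have hκQ : 10 ^ 5 ≤ κ * Q := by
    rw [div_le_iff₀ hκ] at hQκ
    linarith
  have hzz : ((M₀ : ℝ) * z' + M) * Q ≤ 2 * Real.exp s := by
    have h3 : (M₀ * z' + M) * Q ≤ 2 * Q ^ (13 * E + 2 * (b * E') + 1) := by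
      have h4 : M₀ * z' * Q ≤ Q ^ (13 * E + 2 * (b * E') + 1) := by
        have e : M₀ * z' * Q = Q ^ (13 * E + b * E' + 1) := by rw [hM₀, hz']; ring
        rw [e]
        exact Nat.pow_le_pow_right (by omega) (by omega)
      have h5 : M * Q ≤ Q ^ (13 * E + 2 * (b * E') + 1) := by
        calc M * Q ≤ Q * Q := Nat.mul_le_mul_right _ hMQ
          _ = Q ^ 2 := by ring
          _ ≤ _ := Nat.pow_le_pow_right (by omega) (by omega)
      calc (M₀ * z' + M) * Q = M₀ * z' * Q + M * Q := by ring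
        _ ≤ _ := by omega
    have h4 : ((M₀ : ℝ) * z' + M) * Q ≤ 2 * (Q : ℝ) ^ (13 * E + 2 * (b * E') + 1) := by exact_mod_cast h3
    linarith
  set e := Real.exp 1 with he
  have hX0 : (0 : ℝ) ≤ X := Nat.cast_nonneg X
  have q1 : 8 * (W + 4) * X ≤ W ^ 2 * (16 * κ / 10 ^ 6 * (e * Real.exp s)) := by
    have a1 : 8 * (W + 4) ≤ 16 * W := by linarith
    have a2 : 16 * W ≤ W ^ 2 * (16 * κ / 10 ^ 6) := by
      have h5 := mul_le_mul_of_nonneg_left hκW hWp.le
      have h6 : W ^ 2 * (16 * κ / 10 ^ 6) = 16 / 10 ^ 6 * (W * (κ * W)) := by ring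
      rw [h6]
      linarith
    calc 8 * (W + 4) * X ≤ W ^ 2 * (16 * κ / 10 ^ 6) * X := mul_le_mul_of_nonneg_right (a1.trans a2) hX0
      _ ≤ W ^ 2 * (16 * κ / 10 ^ 6) * (e * Real.exp s) := mul_le_mul_of_nonneg_left hXe (by positivity)
      _ = _ := by ring
  have q2 : 2 * W ^ 2 * (M₀ * z' + M) ≤ W ^ 2 * (4 * κ / 10 ^ 5 * Real.exp s) := by
    have a1 : (M₀ : ℝ) * z' + M ≤ 2 * κ / 10 ^ 5 * Real.exp s := by
      have h5 : ((M₀ : ℝ) * z' + M) * 10 ^ 5 ≤ ((M₀ : ℝ) * z' + M) * (κ * Q) :=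
        mul_le_mul_of_nonneg_left hκQ (by positivity)
      have h6 := mul_le_mul_of_nonneg_left hzz hκ.le
      have h7 : ((M₀ : ℝ) * z' + M) * 10 ^ 5 ≤ κ * (2 * Real.exp s) := by linarith
      linarith
    have h6 := mul_le_mul_of_nonneg_left a1 (by positivity : 0 ≤ 2 * W ^ 2)
    linarith
  have q3 : 2 * Φg ≤ W ^ 2 * (κ / 2 * (ρ * Real.exp s)) := by
    have h3 : ρ * (8 * (W + 4) * X + 2 * W ^ 2 * (M₀ * z' + M)) ≤
        ρ * (W ^ 2 * (16 * κ / 10 ^ 6 * (e * Real.exp s)) + W ^ 2 * (4 * κ / 10 ^ 5 * Real.exp s)) :=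
      mul_le_mul_of_nonneg_left (add_le_add q1 q2) hρ
    have h4 := mul_le_mul_of_nonneg_left h3 (by positivity : 0 ≤ 2 * (102 * e))
    have h5 : 2 * (102 * e) * (ρ * (W ^ 2 * (16 * κ / 10 ^ 6 * (e * Real.exp s)) + W ^ 2 * (4 * κ / 10 ^ 5 * Real.exp s))) =
        W ^ 2 * (κ * (ρ * Real.exp s)) * (204 * e * (16 * e / 10 ^ 6 + 4 / 10 ^ 5)) := by ring
    have h6 : 204 * e * (16 * e / 10 ^ 6 + 4 / 10 ^ 5) ≤ 1 / 2 := by nlinarith
    have h7 := mul_le_mul_of_nonneg_left h6 (by positivity : 0 ≤ W ^ 2 * (κ * (ρ * Real.exp s)))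
    linarith
  have hρe : 0 ≤ κ * (ρ * Real.exp s) := by positivity
  have q4 : W * (κ / 3 * (ρ * Real.exp s)) ≤ W ^ 2 * (κ / 3 * (ρ * Real.exp s)) := by
    have h3 : W ≤ W ^ 2 := by nlinarith
    exact mul_le_mul_of_nonneg_right h3 (by positivity)
  have q5 : W ^ 2 * Φ ≤ W ^ 2 * (κ * (ρ * Real.exp s)) := by
    have h3 : W ^ 2 * (κ / 2 * (ρ * Real.exp s)) + W ^ 2 * (κ / 3 * (ρ * Real.exp s)) ≤ W ^ 2 * (κ * (ρ * Real.exp s)) := by
      have : 0 ≤ W ^ 2 * (κ * (ρ * Real.exp s)) := by positivity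
      linarith
    linarith
  exact le_of_mul_le_mul_left q5 (by positivity)

/-- **the energy at every scale of a long range**, uniformly in the modulus and the periodic weight -/
theorem every (κ : ℝ) (hκ : 0 < κ) (hκ1 : κ ≤ 1) (T : ℕ) (hT : 1 ≤ T) (E₀ : ℕ) :
    ∃ E A B : ℕ, E₀ ≤ E ∧ 13 * E ≤ A ∧ T * A + 2 ≤ B ∧ ∃ Q0 : ℕ, ∀ Q : ℕ, Q0 ≤ Q → NE 6 E Q →
    ∀ (M R : ℕ), 1 ≤ M → 1 ≤ R → M * R ≤ Q → ∀ (ρ : ℝ) (l α : ℕ → ℂ), LF l → Al M ρ α →
    ∀ a : ℕ, a.Coprime M → ∀ s : ℝ, (A : ℝ) * Real.log Q ≤ s → s ≤ (B : ℝ) * Real.log Q - 1 →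
    ∫ x in Set.Iic s, Real.exp x *
      EE (1 / (Q : ℝ) ^ 3) R (Ioc (Q ^ (13 * E)) (Q ^ B)) (fun n => FF l α a n / n) x ≤ κ * (ρ * Real.exp s) := by
  obtain ⟨CW, hCW, hW⟩ := WW_est
  obtain ⟨C, hC1, hC⟩ := Pool.Agent.H426R3.CP.exists_BTC
  -- the number of primes of the second step
  obtain ⟨E2, hE2⟩ := exists_nat_ge (Real.exp (10 ^ 6 / κ + CW))
  set E' := E2 + 1 with hE'
  set T' : ℕ := T * (14 + 2 * E') + 2 with hT'
  have hT'r : (0 : ℝ) < T' := by exact_mod_cast (by omega : 0 < T')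
  set η : ℝ := κ / (24 * C * T') with hη
  have hC0 : 0 < C := by linarith
  have hη0 : 0 < η := by positivity
  obtain ⟨E1, hE11, hsm⟩ := small η hη0
  set E := E1 + E₀ with hE
  obtain ⟨B1, hB1⟩ := hsm E (by omega)
  set b := B1 + E + 6 with hb
  have hb1 : 1 ≤ b := by omega
  have hA : 13 * E + 2 * (b * E') + 1 ≤ b * (14 + 2 * E') := by
    have h1 : b * (14 + 2 * E') = 14 * b + 2 * (b * E') := by ring
    rw [h1]
    omega
  obtain ⟨Q1, hQ1⟩ := hB1 (T' * b) (by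
    have : 1 * b ≤ T' * b := Nat.mul_le_mul_right b (by omega)
    omega)
  obtain ⟨Q2, hQ2⟩ := exists_nat_ge (10 ^ 5 / κ)
  refine ⟨E, 13 * E + 2 * (b * E') + 1, T' * b, by omega, by omega, ?_, Q1 + Q2 + 3, fun Q hQ hne M R hM hR hMR ρ l α hl hα a ha s hs1 hs2 => ?_⟩
  · calc T * (13 * E + 2 * (b * E') + 1) + 2 ≤ T * (b * (14 + 2 * E')) + 2 * b := by
          have := Nat.mul_le_mul_left T hA
          omega
      _ = T' * b := by rw [hT']; ring
  · have hQ3 : 3 ≤ Q := by omega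
    have hWW : 10 ^ 6 / κ ≤ WP (PP (Q ^ b) (Q ^ (b * E'))) := by
      have hW1 := (abs_le.1 (hW Q b (b * E') hQ3 hb1 (Nat.le_mul_of_pos_right b (by omega)))).1
      have hbr : (0 : ℝ) < b := by exact_mod_cast hb1
      have hW2 : Real.log (((b * E' : ℕ) : ℝ) / (b : ℕ)) = Real.log E' := by
        congr 1; push_cast; field_simp
      rw [hW2] at hW1
      have hWE : 10 ^ 6 / κ + CW ≤ Real.log E' := by
        rw [Real.le_log_iff_exp_le (by exact_mod_cast (by omega : 0 < E'))]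
        exact hE2.trans (by exact_mod_cast (by omega : E2 ≤ E'))
      rw [WP_eq]
      linarith
    refine engine hC1 hC hκ hκ1 hη0 (by omega) (by omega) (by omega) hM hR hMR hQ3
      (hQ2.trans (by exact_mod_cast (by omega : Q2 ≤ Q))) hWW ?_ hl hα
      (hQ1 Q (by omega) hne M R hM hR hMR ρ l α hl hα) ha hs1 hs2
    rw [hη]
    push_cast
    apply le_of_eq
    field_simp

end Pool.Agent.E8helper68.PJ
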