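import Pool.Agent.E8helper68.PJ.Siv2
import Pool.Agent.E8helper68.PJ.Fam

set_option autoImplicit false

/-!
# Short intervals, the small primes, and the periodic indicator
-/

namespace Pool.Agent.E8helper68.PJ
open Finset
open Pool.Agent.H373R2.T7 (pz mem_pz Vz nuB PerB sys_fund Vz_pos Vz_le_one)
open Pool.Agent.Y842.JC (rem rem_insert loc_le Lz Lz_nonneg Lz_le bad bad_nonneg bad_sum prod_mono_one Vz_up log_small)

open Classical in
/-- the integers `n` such that some `n + t` has a small prime factor -/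
lemma lam_bad {c : ℕ} {X y : ℕ} (hX : 3 ≤ X) (S T : Finset ℤ) (hT : T.card ≤ c)
    (hS : ∀ n ∈ S, ∀ t ∈ T, n + t ≤ X) :
    ∑ n ∈ S.filter (fun n : ℤ => ∃ p ∈ pz y, ∃ t ∈ T, (p : ℤ) ∣ n + t), ∏ t ∈ T, Lz (n + t) ≤
      Real.log X ^ c * (c * (2 * √(X : ℝ) * Real.log X + 2 * y)) := by
  set W : ℝ := Real.log X with hW
  have hX3 : (3 : ℝ) ≤ X := by exact_mod_cast hX
  have hW1 : 1 ≤ W := by
    rw [hW, Real.le_log_iff_exp_le (by linarith)]
    have := Real.exp_one_lt_d9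
    linarith
  have hW0 : 0 ≤ W := by linarith
  have hLW : ∀ n ∈ S, ∀ t ∈ T, Lz (n + t) ≤ W := by
    intro n hn t ht'
    apply Lz_le (by linarith)
    have := hS n hn t ht'
    exact_mod_cast this
  have hprod : ∀ n ∈ S, ∀ T' ⊆ T, ∏ t ∈ T', Lz (n + t) ≤ W ^ T'.card := by
    intro n hn T' hT'
    rw [← prod_const]
    exact prod_le_prod (fun t _ => Lz_nonneg _) (fun t ht' => hLW n hn t (hT' ht'))
  have hbad : ∀ n ∈ S, (∃ p ∈ pz y, ∃ t ∈ T, (p : ℤ) ∣ n + t) → ∏ t ∈ T, Lz (n + t) ≤ W ^ c * ∑ t ∈ T, bad y (n + t) := by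
    intro n hn hnG
    have hS0 : 0 ≤ ∑ t ∈ T, bad y (n + t) := sum_nonneg fun t _ => bad_nonneg y _
    obtain ⟨p, hp, t0, ht0, hpt⟩ := hnG
    by_cases h0 : Lz (n + t0) = 0
    · rw [prod_eq_zero ht0 h0]
      positivity
    · have hb : bad y (n + t0) = Lz (n + t0) := by
        unfold bad
        rw [if_neg]
        rintro ⟨h1, h2⟩
        have hpos : 0 < (n + t0).toNat := h1.pos
        have h3 : (((n + t0).toNat : ℕ) : ℤ) = n + t0 := Int.toNat_of_nonneg (by omega)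
        rw [← h3] at hpt
        have h4 : p ∣ (n + t0).toNat := by exact_mod_cast hpt
        have h5 := (Nat.prime_dvd_prime_iff_eq (mem_pz.1 hp).2 h1).1 h4
        have h6 := (mem_pz.1 hp).1
        omega
      rw [← mul_prod_erase T _ ht0, ← hb]
      have h1 := hprod n hn (T.erase t0) (erase_subset _ _)
      have h2 : W ^ (T.erase t0).card ≤ W ^ c :=
        pow_le_pow_right₀ hW1 ((card_le_card (erase_subset _ _)).trans hT)
      have h3 : bad y (n + t0) ≤ ∑ t ∈ T, bad y (n + t) :=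
        single_le_sum (f := fun t => bad y (n + t)) (fun t _ => bad_nonneg y _) ht0
      rw [mul_comm]
      exact mul_le_mul (h1.trans h2) h3 (bad_nonneg _ _) (by positivity)
  have h1 : ∑ n ∈ S.filter (fun n : ℤ => ∃ p ∈ pz y, ∃ t ∈ T, (p : ℤ) ∣ n + t), ∏ t ∈ T, Lz (n + t) ≤
      ∑ n ∈ S, W ^ c * ∑ t ∈ T, bad y (n + t) := by
    refine (sum_le_sum fun n hn => ?_).trans (sum_le_sum_of_subset_of_nonneg (filter_subset _ _) fun n _ _ =>
      mul_nonneg (by positivity) (sum_nonneg fun t _ => bad_nonneg y _))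
    rw [mem_filter] at hn
    exact hbad n hn.1 hn.2
  refine h1.trans ?_
  rw [← mul_sum, sum_comm]
  apply mul_le_mul_of_nonneg_left _ (by positivity)
  have h1 : ∀ t ∈ T, ∑ n ∈ S, bad y (n + t) ≤ 2 * √(X : ℝ) * W + 2 * y := fun t ht' =>
    bad_sum y X (by omega) S t (fun n hn => hS n hn t ht')
  refine (sum_le_sum h1).trans ?_
  rw [sum_const, nsmul_eq_mul]
  apply mul_le_mul_of_nonneg_right _ (by positivity)
  exact_mod_cast hT

open Classical in
/-- upper bound sieve in an interval -/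
lemma count_x (c : ℕ) (hc : 1 ≤ c) : ∃ K x0 : ℕ, 1 ≤ K ∧ ∀ x y : ℕ, x0 ≤ y → y ^ K ≤ x → ∀ s : ℤ,
    ∀ T : Finset ℤ, T.card ≤ c → ∀ X : ℕ,
    (((Icc 1 X).filter (fun n : ℕ => ∀ p ∈ pz y, ¬ ∃ t ∈ T, (p : ℤ) ∣ s + n + t)).card : ℝ) ≤
      2 * (X * (Vz y ^ T.card * PiA T)) + √(x : ℝ) := by
  obtain ⟨K, x0, hK, h⟩ := sys_fund c hc 1 one_pos
  refine ⟨K, x0, hK, fun x y hy hyx s T hT X => ?_⟩
  have hnu : ∀ p, nuB (fun p n => ∃ t ∈ T, (p : ℤ) ∣ s + n + t) p = (rem s T p).card := by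
    intro p
    unfold nuB rem
    apply congrArg
    ext r
    simp only [mem_filter]
  have hper : PerB (fun p n => ∃ t ∈ T, (p : ℤ) ∣ s + n + t) c := by
    constructor
    · intro p n
      apply exists_congr
      intro t
      apply and_congr_right
      intro _
      have h1 : (n : ℤ) = ((n % p : ℕ) : ℤ) + (p : ℤ) * ((n / p : ℕ) : ℤ) := by
        exact_mod_cast (Nat.mod_add_div n p).symm
      have e : s + (n : ℤ) + t = (s + ((n % p : ℕ) : ℤ) + t) + (p : ℤ) * ((n / p : ℕ) : ℤ) := by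
        linarith [h1]
      rw [e]
      exact Int.dvd_add_left (Dvd.intro _ rfl)
    · intro p hp
      rw [hnu]
      exact (rem_card_le' s hp T).trans hT
  have h1 := (abs_le.1 (h x y hy hyx _ hper X)).2
  simp only [hnu] at h1
  have hfac : ∀ p ∈ pz y, 0 ≤ 1 - ((rem s T p).card : ℝ) / p := by
    intro p hp
    have hp0 : (0 : ℝ) < p := by exact_mod_cast (mem_pz.1 hp).2.pos
    have h3 : ((rem s T p).card : ℝ) / p ≤ 1 := by
      rw [div_le_one hp0]
      exact_mod_cast rem_card_le s T p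
    linarith
  have h2 : ∏ p ∈ pz y, (1 - ((rem s T p).card : ℝ) / p) ≤ Vz y ^ T.card * PiA T := by
    have h4 : ∀ p ∈ pz y, 1 - ((rem s T p).card : ℝ) / p ≤
        (1 - 1 / (p : ℝ)) ^ T.card * ∏ q ∈ T.offDiag, (if (p : ℤ) ∣ q.1 - q.2 then 1 + 2 / (p : ℝ) else 1) := by
      intro p hp
      have hpp := (mem_pz.1 hp).2
      have hp2 : (2 : ℝ) ≤ p := by exact_mod_cast hpp.two_le
      refine le_trans ?_ (loc_le s p hpp T)
      have h2 := one_add_mul_le_pow (a := -(1 / (p : ℝ))) (by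
        have : 1 / (p : ℝ) ≤ 1 := by rw [div_le_one (by linarith)]; linarith
        linarith) (rem s T p).card
      have e1 : 1 + ((rem s T p).card : ℝ) * -(1 / (p : ℝ)) = 1 - ((rem s T p).card : ℝ) / p := by ring
      rw [e1] at h2
      have e2 : (1 + -(1 / (p : ℝ))) = 1 - 1 / (p : ℝ) := by ring
      rwa [e2] at h2
    refine (prod_le_prod hfac h4).trans ?_
    rw [prod_mul_distrib, prod_pow]
    apply mul_le_mul_of_nonneg_left _ (pow_nonneg (Vz_pos y).le _)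
    rw [prod_comm]
    unfold PiA
    apply prod_le_prod
    · intro q _
      exact prod_nonneg fun p _ => zero_le_one.trans (gp_ge_one p _)
    · intro q hq
      rw [mem_offDiag] at hq
      exact gp_prod _ (fun p hp => (mem_pz.1 hp).2) _ (sub_ne_zero.2 hq.2.2)
  have h3 := sub_le_iff_le_add.1 h1
  have h4 := mul_le_mul_of_nonneg_left h2 (Nat.cast_nonneg X : (0 : ℝ) ≤ X)
  refine le_trans (le_of_eq ?_) (h3.trans (by linarith))
  apply congrArg
  apply congrArg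
  ext n
  simp only [mem_filter]

/-- **the product of von Mangoldt functions in a short interval** -/
theorem short (f : ℕ) (hf : 1 ≤ f) (D : ℕ) (hD : 1 ≤ D) : ∃ C : ℝ, 1 ≤ C ∧ ∃ N0 : ℕ, ∀ N : ℕ, N0 ≤ N →
    ∀ T : Finset ℤ, T.card ≤ f → (∀ a ∈ T, |a| ≤ D * N) → ∀ x Y : ℕ, x + Y ≤ N →
    ∑ n ∈ Ioc (x : ℤ) (x + Y), ∏ u ∈ T, Lz (n + u) ≤ C * Y * PiA T + (N : ℝ) ^ (3 / 4 : ℝ) := by
  classical
  obtain ⟨K, x0, hK, hcount⟩ := count_x f hf
  obtain ⟨CV, hCV, hV⟩ := Vz_up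
  obtain ⟨N1, hN1⟩ := log_small (f + 1) (20 * (f + 1) * (2 * D + 1) * (2 * D + 1) ^ (f + 1))
  set A : ℝ := max 1 (CV * (8 * (2 * D + 1) * (K + 2))) with hA
  have hA1 : 1 ≤ A := le_max_left _ _
  refine ⟨2 * A ^ f, ?_, N1 + (x0 + 3) ^ (K + 2) + 6, fun N hN T hTf hsz x Y hxY => ?_⟩
  · have := one_le_pow₀ hA1 (n := f)
    linarith
  obtain ⟨y, hwy, hyN, hlogy⟩ := level K (by omega : 3 ≤ x0 + 3) (by omega : (x0 + 3) ^ (K + 2) ≤ N)
  have hN6 : (6 : ℝ) ≤ N := by exact_mod_cast (by omega : 6 ≤ N)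
  have hN0 : (0 : ℝ) < N := by linarith
  have hD1 : (1 : ℝ) ≤ D := by exact_mod_cast hD
  set X : ℕ := (2 * D + 1) * N with hX
  have hXr : (X : ℝ) = (2 * D + 1) * N := by rw [hX]; push_cast; ring
  have hX3 : 3 ≤ X := (by omega : 3 ≤ N).trans (Nat.le_mul_of_pos_left N (by omega))
  set W : ℝ := Real.log X with hW
  have hlogN : 1 ≤ Real.log N := by
    rw [Real.le_log_iff_exp_le hN0]
    have := Real.exp_one_lt_d9
    linarith
  have hlD : Real.log (2 * D + 1) ≤ 2 * D := by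
    have := Real.log_le_sub_one_of_pos (by positivity : (0 : ℝ) < 2 * D + 1)
    linarith
  have hl6 : 1 ≤ Real.log (6 * N) := by
    rw [Real.le_log_iff_exp_le (by positivity)]
    have := Real.exp_one_lt_d9
    linarith
  have hWeq : W = Real.log (2 * D + 1) + Real.log N := by
    rw [hW, hXr, Real.log_mul (by positivity) hN0.ne']
  have hW6 : W ≤ (2 * D + 1) * Real.log (6 * N) := by
    rw [hWeq]
    have h1 : Real.log N ≤ Real.log (6 * N) := Real.log_le_log hN0 (by linarith)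
    nlinarith
  have hWN : W ≤ (2 * D + 1) * Real.log N := by
    rw [hWeq]
    nlinarith
  have hW1 : 1 ≤ W := by
    rw [hWeq]
    have : 0 ≤ Real.log (2 * (D : ℝ) + 1) := Real.log_nonneg (by linarith)
    linarith
  have hW0 : 0 ≤ W := by linarith
  have hlam := lam_le (c := f) (y := y) hf hX3 (Ioc (x : ℤ) (x + Y)) T hTf (by
    intro n hn u hu
    rw [mem_Ioc] at hn
    have h1 := (abs_le.1 (hsz u hu)).2
    have h2 : ((x : ℤ) + Y) ≤ N := by exact_mod_cast hxY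
    have h3 : (0 : ℤ) ≤ D * N := by positivity
    rw [hX]
    push_cast
    linarith [hn.2])
  have hG : (((Ioc (x : ℤ) (x + Y)).filter (fun n : ℤ => ∀ p ∈ pz y, ¬ ∃ t ∈ T, (p : ℤ) ∣ n + t)).card : ℝ) ≤
      2 * (Y * (Vz y ^ T.card * PiA T)) + √(N : ℝ) := by
    have h1 := hcount N y (by omega) ((Nat.pow_le_pow_right (by omega) (by omega)).trans hyN) x T hTf Y
    refine le_trans ?_ h1
    apply Nat.cast_le.2
    apply card_le_card_of_injOn (fun n : ℤ => (n - x).toNat)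
    · intro n hn
      rw [mem_coe, mem_filter, mem_Ioc] at hn
      rw [mem_coe, mem_filter, mem_Icc]
      refine ⟨by simp only; omega, fun p hp => ?_⟩
      have h2 : (((n - x).toNat : ℕ) : ℤ) = n - x := Int.toNat_of_nonneg (by omega)
      simp only [h2]
      have h3 : (x : ℤ) + (n - x) = n := by ring
      rw [h3]
      exact hn.2 p hp
    · intro n hn n' hn' h
      rw [mem_coe, mem_filter, mem_Ioc] at hn hn'
      simp only at h
      omega
  have hVy := Vz_pos y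
  have hy3 : 3 ≤ y := by omega
  have hly0 : 0 < Real.log y := Real.log_pos (by exact_mod_cast (by omega : 1 < y))
  have hWV : W * Vz y ≤ A := by
    have h1 := hV y hy3
    have h2 : W * Vz y ≤ ((2 * D + 1) * Real.log N) * (CV / Real.log y) :=
      mul_le_mul hWN h1 hVy.le (by positivity)
    have h3 : ((2 * D + 1) * Real.log N) * (CV / Real.log y) ≤ CV * (8 * (2 * D + 1) * (K + 2)) := by
      rw [← mul_div_assoc, div_le_iff₀ hly0]
      have h4 : Real.log N ≤ 8 * (K + 2) * Real.log y := by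
        refine hlogy.trans ?_
        apply mul_le_mul_of_nonneg_right _ hly0.le
        have : (0 : ℝ) ≤ K := Nat.cast_nonneg K
        linarith
      calc (2 * D + 1) * Real.log N * CV ≤ (2 * D + 1) * (8 * (K + 2) * Real.log y) * CV := by gcongr
        _ = _ := by ring
    exact (h2.trans h3).trans (le_max_right _ _)
  have hPi := one_le_PiA T
  have hY0 : (0 : ℝ) ≤ Y := Nat.cast_nonneg Y
  have hmain : W ^ T.card * (2 * (Y * (Vz y ^ T.card * PiA T))) ≤ 2 * A ^ f * Y * PiA T := by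
    have h2 : (W * Vz y) ^ T.card ≤ A ^ f :=
      (pow_le_pow_left₀ (by positivity) hWV _).trans (pow_le_pow_right₀ hA1 hTf)
    calc W ^ T.card * (2 * (Y * (Vz y ^ T.card * PiA T))) = (W * Vz y) ^ T.card * (2 * Y * PiA T) := by
          rw [mul_pow]; ring
      _ ≤ A ^ f * (2 * Y * PiA T) := mul_le_mul_of_nonneg_right h2 (by positivity)
      _ = _ := by ring
  have hysq : (y : ℝ) ≤ √(N : ℝ) := by
    apply Real.le_sqrt_of_sq_le
    have h1 : y ^ 2 ≤ N := (Nat.pow_le_pow_right (by omega) (by omega)).trans hyN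
    exact_mod_cast h1
  have hXs : √(X : ℝ) ≤ (2 * D + 1) * √(N : ℝ) := by
    rw [hXr, Real.sqrt_mul (by positivity)]
    apply mul_le_mul_of_nonneg_right _ (Real.sqrt_nonneg _)
    rw [Real.sqrt_le_left (by positivity)]
    nlinarith
  have hs0 : 0 ≤ √(N : ℝ) := Real.sqrt_nonneg _
  have herr : W ^ T.card * √(N : ℝ) + W ^ f * (f * (2 * √(X : ℝ) * W + 2 * y)) ≤ (N : ℝ) ^ (3 / 4 : ℝ) := by
    have h1 : W ^ T.card ≤ W ^ (f + 1) := pow_le_pow_right₀ hW1 (by omega)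
    have hP0 : 0 ≤ W ^ (f + 1) * √(N : ℝ) := by positivity
    have hf0 : (0 : ℝ) ≤ f := Nat.cast_nonneg f
    have h3 : W ^ f * (f * (2 * √(X : ℝ) * W + 2 * y)) ≤ 4 * f * (2 * D + 1) * (W ^ (f + 1) * √(N : ℝ)) := by
      have h4 : 2 * √(X : ℝ) * W + 2 * y ≤ 4 * ((2 * D + 1) * √(N : ℝ)) * W := by
        have h5 : √(X : ℝ) * W ≤ (2 * D + 1) * √(N : ℝ) * W := mul_le_mul_of_nonneg_right hXs hW0
        have h6 : √(N : ℝ) ≤ (2 * D + 1) * √(N : ℝ) := le_mul_of_one_le_left hs0 (by linarith)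
        have h7 : (2 * (D : ℝ) + 1) * √(N : ℝ) ≤ (2 * D + 1) * √(N : ℝ) * W :=
          le_mul_of_one_le_right (by positivity) hW1
        linarith
      calc W ^ f * (f * (2 * √(X : ℝ) * W + 2 * y)) ≤ W ^ f * (f * (4 * ((2 * D + 1) * √(N : ℝ)) * W)) := by gcongr
        _ = _ := by ring
    have h4 : W ^ T.card * √(N : ℝ) ≤ W ^ (f + 1) * √(N : ℝ) := mul_le_mul_of_nonneg_right h1 hs0
    have h5 : W ^ (f + 1) ≤ (2 * D + 1) ^ (f + 1) * Real.log (6 * N) ^ (f + 1) := by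
      rw [← mul_pow]
      exact pow_le_pow_left₀ hW0 hW6 _
    have h6 := hN1 N (by omega)
    have h7 : (1 + 4 * f * (2 * (D : ℝ) + 1)) ≤ 20 * (f + 1) * (2 * D + 1) := by nlinarith
    have h8 : (1 + 4 * f * (2 * (D : ℝ) + 1)) * W ^ (f + 1) ≤ (N : ℝ) ^ (1 / 4 : ℝ) := by
      refine le_trans ?_ h6
      calc (1 + 4 * f * (2 * (D : ℝ) + 1)) * W ^ (f + 1) ≤
          20 * (f + 1) * (2 * D + 1) * ((2 * D + 1) ^ (f + 1) * Real.log (6 * N) ^ (f + 1)) :=
            mul_le_mul h7 h5 (by positivity) (by positivity)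
        _ = _ := by ring
    have h9 := mul_le_mul_of_nonneg_right h8 hs0
    have h10 : (N : ℝ) ^ (1 / 4 : ℝ) * √(N : ℝ) ≤ (N : ℝ) ^ (3 / 4 : ℝ) := by
      rw [Real.sqrt_eq_rpow, ← Real.rpow_add hN0]
      apply le_of_eq
      norm_num
    linarith
  have hWU : 0 ≤ W ^ T.card := by positivity
  have h2 := mul_le_mul_of_nonneg_left hG hWU
  linarith

/-! ### the periodic indicator -/

lemma shift_range {M : ℕ} (hM : 0 < M) {A : Type*} [AddCommMonoid A] (F : ℕ → A) (hF : ∀ m, F (m % M) = F m) (s : ℕ) :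
    ∑ c ∈ range M, F (c + s) = ∑ c ∈ range M, F c := by
  have hmaps : ∀ c ∈ range M, (c + s) % M ∈ range M := fun c _ => mem_range.2 (Nat.mod_lt _ hM)
  have hinj : Set.InjOn (fun c => (c + s) % M) (range M : Set ℕ) := by
    intro c hc d hd hcd
    rw [mem_coe, mem_range] at hc hd
    have h1 : c + s ≡ d + s [MOD M] := hcd
    exact Nat.ModEq.eq_of_lt_of_lt (Nat.ModEq.add_right_cancel' s h1) hc hd
  have hsurj : Set.SurjOn (fun c => (c + s) % M) (range M : Set ℕ) (range M : Set ℕ) :=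
    Finset.surjOn_of_injOn_of_card_le _ (fun a ha => hmaps a ha) hinj le_rfl
  refine sum_nbij (fun c => (c + s) % M) hmaps hinj hsurj ?_
  intro c _
  exact (hF _).symm

lemma per_sum {M : ℕ} (hM : 0 < M) (F : ℕ → ℝ) (hF : ∀ m, F (m % M) = F m) (k : ℕ) :
    ∑ n ∈ Icc 1 (M * k), F n = k * ∑ c ∈ range M, F c := by
  induction k with
  | zero => simp
  | succ k ih =>
    have h1 : Icc 1 (M * (k + 1)) = Icc 1 (M * k) ∪ Ioc (M * k) (M * (k + 1)) := by
      ext n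
      simp only [mem_union, mem_Icc, mem_Ioc]
      have : M * k ≤ M * (k + 1) := Nat.mul_le_mul_left M (by omega)
      omega
    have h2 : Disjoint (Icc 1 (M * k)) (Ioc (M * k) (M * (k + 1))) := by
      rw [disjoint_left]
      intro n hn hn'
      rw [mem_Icc] at hn
      rw [mem_Ioc] at hn'
      omega
    rw [h1, sum_union h2, ih]
    have h3 : ∑ n ∈ Ioc (M * k) (M * (k + 1)), F n = ∑ c ∈ range M, F (c + (M * k + 1)) := by
      symm
      refine sum_nbij (fun c => c + (M * k + 1)) ?_ ?_ ?_ ?_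
      · intro c hc
        rw [mem_range] at hc
        rw [mem_Ioc]
        have : M * (k + 1) = M * k + M := by ring
        omega
      · intro c _ d _ h
        simp only at h
        omega
      · intro n hn
        rw [mem_coe, mem_Ioc] at hn
        have : M * (k + 1) = M * k + M := by ring
        exact ⟨n - (M * k + 1), by rw [mem_coe, mem_range]; omega, by simp only; omega⟩
      · intro c _; rfl
    rw [h3, shift_range hM F hF]
    push_cast
    ring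

open Classical in
/-- the indicator of `p ∤ n + s + a` for all `p ≤ w` and `a ∈ 𝒜` -/
noncomputable def al (w : ℕ) (𝒜 : Finset ℕ) (s n : ℕ) : ℂ := if ∀ p ∈ pz w, ∀ a ∈ 𝒜, ¬ p ∣ n + s + a then 1 else 0

/-- the product of the primes up to `w` -/
def Mw (w : ℕ) : ℕ := ∏ p ∈ pz w, p

lemma Mw_pos (w : ℕ) : 0 < Mw w := prod_pos fun p hp => (mem_pz.1 hp).2.pos

lemma dvd_Mw {w p : ℕ} (hp : p ∈ pz w) : p ∣ Mw w := dvd_prod_of_mem _ hp

lemma Mw_le (w : ℕ) : Mw w ≤ 4 ^ w := by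
  have h1 : Mw w = primorial w := by
    unfold Mw primorial
    apply prod_congr _ fun _ _ => rfl
    ext p
    rw [mem_pz, mem_filter, mem_range]
    constructor
    · rintro ⟨h1, h2⟩; exact ⟨by omega, h2⟩
    · rintro ⟨h1, h2⟩; exact ⟨by omega, h2⟩
  rw [h1]
  exact primorial_le_four_pow w

lemma al_per (w : ℕ) (𝒜 : Finset ℕ) (s n : ℕ) : al w 𝒜 s (n % Mw w) = al w 𝒜 s n := by
  have h : (∀ p ∈ pz w, ∀ a ∈ 𝒜, ¬ p ∣ n % Mw w + s + a) ↔ (∀ p ∈ pz w, ∀ a ∈ 𝒜, ¬ p ∣ n + s + a) := by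
    apply forall_congr'
    intro p
    apply forall_congr'
    intro hp
    apply forall_congr'
    intro a
    apply forall_congr'
    intro _
    apply not_congr
    have h1 : n % Mw w ≡ n [MOD p] := (Nat.mod_modEq n (Mw w)).of_dvd (dvd_Mw hp)
    have h2 : n % Mw w + s + a ≡ n + s + a [MOD p] := (h1.add_right s).add_right a
    exact ⟨fun h => (h2.dvd_iff dvd_rfl).1 h, fun h => (h2.dvd_iff dvd_rfl).2 h⟩
  unfold al
  by_cases hh : ∀ p ∈ pz w, ∀ a ∈ 𝒜, ¬ p ∣ n + s + a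
  · rw [if_pos hh, if_pos (h.2 hh)]
  · rw [if_neg hh, if_neg (fun h' => hh (h.1 h'))]

lemma al_bd (w : ℕ) (𝒜 : Finset ℕ) (s n : ℕ) : ‖al w 𝒜 s n‖ ≤ 1 := by
  unfold al
  split_ifs <;> simp

/-- the mean of the indicator -/
noncomputable def rho (w : ℕ) (𝒜 : Finset ℕ) : ℝ := (∑ c ∈ range (Mw w), ‖al w 𝒜 0 c‖ ^ 2) / Mw w

lemma al_shift (w : ℕ) (𝒜 : Finset ℕ) (s n : ℕ) : al w 𝒜 s n = al w 𝒜 0 (n + s) := by
  unfold al
  simp only [add_zero]

lemma al_Al (w : ℕ) (𝒜 : Finset ℕ) (s : ℕ) : Al (Mw w) (rho w 𝒜) (al w 𝒜 s) := by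
  refine ⟨al_per w 𝒜 s, al_bd w 𝒜 s, ?_⟩
  have hM : (0 : ℝ) < Mw w := by exact_mod_cast Mw_pos w
  unfold rho
  rw [div_mul_cancel₀ _ hM.ne']
  simp only [al_shift w 𝒜 s]
  exact shift_range (Mw_pos w) (fun n => ‖al w 𝒜 0 n‖ ^ 2) (fun m => by simp only [al_per]) s

lemma al_sq (w : ℕ) (𝒜 : Finset ℕ) (s n : ℕ) : ‖al w 𝒜 s n‖ ^ 2 = 0 ∨ ‖al w 𝒜 s n‖ ^ 2 = 1 := by
  unfold al
  split_ifs
  · right; simp
  · left; simp

lemma rho_nonneg (w : ℕ) (𝒜 : Finset ℕ) : 0 ≤ rho w 𝒜 := by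
  unfold rho
  exact div_nonneg (sum_nonneg fun _ _ => by positivity) (Nat.cast_nonneg _)

lemma rho_le_one (w : ℕ) (𝒜 : Finset ℕ) : rho w 𝒜 ≤ 1 := by
  have hM : (0 : ℝ) < Mw w := by exact_mod_cast Mw_pos w
  unfold rho
  rw [div_le_one hM]
  calc ∑ c ∈ range (Mw w), ‖al w 𝒜 0 c‖ ^ 2 ≤ ∑ c ∈ range (Mw w), (1 : ℝ) :=
        sum_le_sum fun c _ => pow_le_one₀ (norm_nonneg _) (al_bd w 𝒜 0 c)
    _ = Mw w := by simp

/-- a value of the indicator gives a lower bound for the mean -/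
lemma rho_ge {w : ℕ} {𝒜 : Finset ℕ} {n : ℕ} (h : al w 𝒜 0 n ≠ 0) : 1 / (Mw w : ℝ) ≤ rho w 𝒜 := by
  have hM : (0 : ℝ) < Mw w := by exact_mod_cast Mw_pos w
  unfold rho
  apply div_le_div_of_nonneg_right _ hM.le
  have h1 : ‖al w 𝒜 0 (n % Mw w)‖ ^ 2 = 1 := by
    rcases al_sq w 𝒜 0 (n % Mw w) with h2 | h2
    · exfalso
      apply h
      rw [← al_per]
      exact norm_eq_zero.1 (pow_eq_zero_iff (two_ne_zero) |>.1 h2)
    · exact h2
  rw [← h1]
  exact single_le_sum (f := fun c => ‖al w 𝒜 0 c‖ ^ 2) (fun c _ => by positivity)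
    (mem_range.2 (Nat.mod_lt _ (Mw_pos w)))

/-- the shifts as integers -/
def zs (𝒜 : Finset ℕ) : Finset ℤ := 𝒜.map ⟨fun a : ℕ => (a : ℤ), fun a b h => by simpa using h⟩

lemma mem_zs {𝒜 : Finset ℕ} {u : ℤ} : u ∈ zs 𝒜 ↔ ∃ a ∈ 𝒜, (a : ℤ) = u := by
  unfold zs
  rw [mem_map]
  exact Iff.rfl

lemma card_zs (𝒜 : Finset ℕ) : (zs 𝒜).card = 𝒜.card := by unfold zs; simp

lemma rho_dens (c : ℕ) (hc : 1 ≤ c) : ∃ x0 : ℕ, ∀ w : ℕ, x0 ≤ w → ∀ 𝒜 : Finset ℕ, 𝒜.card ≤ c →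
    rho w 𝒜 ≤ 2 * dens (zs 𝒜) w := by
  classical
  obtain ⟨x0, h⟩ := rho_le c hc
  refine ⟨x0, fun w hw 𝒜 h𝒜 => h w hw (zs 𝒜) (by rw [card_zs]; exact h𝒜) (Mw w) (rho w 𝒜) (Mw_pos w) fun k => ?_⟩
  have hM : (0 : ℝ) < Mw w := by exact_mod_cast Mw_pos w
  have h1 := per_sum (Mw_pos w) (fun n => ‖al w 𝒜 0 n‖ ^ 2) (fun m => by simp only [al_per]) k
  have h2 : rho w 𝒜 * (Mw w * k) = ∑ n ∈ Icc 1 (Mw w * k), ‖al w 𝒜 0 n‖ ^ 2 := by
    rw [h1]
    unfold rho
    field_simp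
  rw [h2]
  have h3 : ∀ n : ℕ, ‖al w 𝒜 0 n‖ ^ 2 = if (∀ p ∈ pz w, ¬ ∃ t ∈ zs 𝒜, (p : ℤ) ∣ n + t) then (1 : ℝ) else 0 := by
    intro n
    have h4 : (∀ p ∈ pz w, ∀ a ∈ 𝒜, ¬ p ∣ n + 0 + a) ↔ (∀ p ∈ pz w, ¬ ∃ t ∈ zs 𝒜, (p : ℤ) ∣ n + t) := by
      apply forall_congr'
      intro p
      apply forall_congr'
      intro _
      constructor
      · rintro h5 ⟨t, ht, hd⟩
        obtain ⟨a, ha, rfl⟩ := mem_zs.1 ht
        apply h5 a ha
        rw [add_zero]
        exact_mod_cast hd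
      · intro h5 a ha hd
        apply h5
        refine ⟨a, mem_zs.2 ⟨a, ha, rfl⟩, ?_⟩
        rw [add_zero] at hd
        exact_mod_cast hd
    unfold al
    by_cases hh : ∀ p ∈ pz w, ∀ a ∈ 𝒜, ¬ p ∣ n + 0 + a
    · rw [if_pos hh, if_pos (h4.1 hh)]; simp
    · rw [if_neg hh, if_neg (fun h' => hh (h4.2 h'))]; simp
  simp only [h3]
  rw [← sum_filter, sum_const, nsmul_eq_mul, mul_one]

end Pool.Agent.E8helper68.PJ
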