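import Pool.Agent.E8helper68.PJ.Fin1

set_option autoImplicit false

/-!
# One class of shifts modulo the product of the small primes
-/

open Finset MeasureTheory
open scoped Real
open Pool.Agent.Helper112

namespace Pool.Agent.E8helper68.PJ

open Pool.Agent.TH823.PS Pool.Agent.W66 Pool.Agent.W66L
open Pool.Agent.H373R2.T7 (liR liR_norm pz mem_pz)
open Pool.Agent.Y842.JC (Lz Lz_nonneg Lz_le)

/-- the level of the small primes -/
noncomputable def wQ (Q : ℕ) : ℕ := ⌊Real.log Q / 140⌋₊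

/-- the parameters, for large base scale -/
lemma params (f K B w1 n1 : ℕ) (C0 : ℝ) : ∃ Q0 : ℕ, ∀ Q : ℕ, Q0 ≤ Q →
    w1 ≤ wQ Q ∧ (wQ Q : ℝ) ≤ Real.log Q ∧ (Mw (wQ Q) : ℝ) ≤ qq Q ∧
    2 * (((B : ℝ) + 1) * Real.log Q) ≤ wQ Q * Real.log (wQ Q) ∧
    (wQ Q) ^ K ≤ Q ∧ C0 * (B * Real.log Q) ^ (2 * f + 2) ≤ qq Q ∧ n1 ≤ Q ∧ 4 ≤ Q ∧ 1 < qq Q := by
  obtain ⟨Q1, hQ1⟩ := logpow 1 K
  obtain ⟨Q2, hQ2⟩ := logpow (C0 * (B : ℝ) ^ (2 * f + 2)) (2 * f + 2)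
  obtain ⟨Q3, hQ3⟩ := logpow 2 0
  obtain ⟨w2, hw2⟩ := exists_nat_ge (Real.exp (560 * ((B : ℝ) + 1)))
  obtain ⟨Q4, hQ4⟩ := exists_nat_ge (Real.exp (280 * ((w1 : ℝ) + w2 + 2)))
  refine ⟨Q1 + Q2 + Q3 + Q4 + n1 + 4, fun Q hQ => ?_⟩
  have hQr : (4 : ℝ) ≤ Q := by exact_mod_cast (by omega : 4 ≤ Q)
  have hQ0 : (0 : ℝ) < Q := by linarith
  have hlog : 280 * ((w1 : ℝ) + w2 + 2) ≤ Real.log Q := by
    rw [Real.le_log_iff_exp_le hQ0]
    refine hQ4.trans ?_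
    exact_mod_cast (by omega : Q4 ≤ Q)
  have hw10 : (0 : ℝ) ≤ w1 := Nat.cast_nonneg _
  have hw20 : (0 : ℝ) ≤ w2 := Nat.cast_nonneg _
  have hl0 : 0 < Real.log Q := by linarith
  have hwle : (wQ Q : ℝ) ≤ Real.log Q / 140 := Nat.floor_le (by positivity)
  have hwge : Real.log Q / 280 ≤ wQ Q := by
    have h1 : Real.log Q / 140 < (wQ Q : ℝ) + 1 := Nat.lt_floor_add_one _
    have h2 : (1 : ℝ) ≤ Real.log Q / 280 := by
      rw [le_div_iff₀ (by norm_num)]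
      linarith
    have h3 : Real.log Q / 140 = Real.log Q / 280 + Real.log Q / 280 := by ring
    linarith
  have hw3 : (w1 : ℝ) + w2 + 2 ≤ wQ Q := by
    refine le_trans ?_ hwge
    rw [le_div_iff₀ (by norm_num)]
    linarith
  have hw4 : (w2 : ℝ) ≤ wQ Q := by linarith
  have hwlog : (wQ Q : ℝ) ≤ Real.log Q := by
    refine hwle.trans ?_
    rw [div_le_iff₀ (by norm_num)]
    linarith
  refine ⟨?_, hwlog, ?_, ?_, ?_, ?_, by omega, by omega, ?_⟩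
  · have : (w1 : ℝ) ≤ wQ Q := by linarith
    exact_mod_cast this
  · have h1 : (Mw (wQ Q) : ℝ) ≤ (4 : ℝ) ^ (wQ Q : ℝ) := by
      rw [Real.rpow_natCast]
      exact_mod_cast Mw_le (wQ Q)
    refine h1.trans ?_
    have h2 : Real.log 4 ≤ 1.4 := by
      have e : (4 : ℝ) = 2 ^ 2 := by norm_num
      rw [e, Real.log_pow]
      have := Real.log_two_lt_d9
      push_cast
      linarith
    unfold qq
    rw [← Real.log_le_log_iff (by positivity) (by positivity), Real.log_rpow (by norm_num), Real.log_rpow hQ0]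
    have h3 : (wQ Q : ℝ) * Real.log 4 ≤ (Real.log Q / 140) * 1.4 :=
      mul_le_mul hwle h2 (Real.log_nonneg (by norm_num)) (by positivity)
    linarith
  · have h1 : 560 * ((B : ℝ) + 1) ≤ Real.log (wQ Q) := by
      rw [Real.le_log_iff_exp_le (by linarith)]
      exact hw2.trans hw4
    have h2 : Real.log Q / 280 * (560 * ((B : ℝ) + 1)) ≤ wQ Q * Real.log (wQ Q) :=
      mul_le_mul hwge h1 (by positivity) (by linarith)
    linarith
  · have h1 := hQ1 Q (by omega)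
    rw [one_mul] at h1
    have h2 : (wQ Q : ℝ) ^ K ≤ Real.log Q ^ K := pow_le_pow_left₀ (Nat.cast_nonneg _) hwlog K
    have h3 : qq Q ≤ Q := by
      have := qq_pow_le (Q := Q) (by omega) (k := 1) (by norm_num)
      rwa [pow_one] at this
    exact_mod_cast (h2.trans (h1.trans h3))
  · have h1 := hQ2 Q (by omega)
    rw [mul_pow]
    linarith
  · have h1 := hQ3 Q (by omega)
    rw [pow_zero, mul_one] at h1
    linarith

open Classical in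
/-- the correlations of the majorant over the differences of a class -/
lemma A2_bound {f D N w : ℕ} {C ρ W : ℝ} {𝒜 : Finset ℕ} (h𝒜 : 𝒜.card ≤ f) (hsz : ∀ a ∈ 𝒜, a ≤ D * N)
    {S : Finset ℕ} (hS : S ⊆ Icc 1 (D * N))
    (hpair : ∀ t : ℤ, |t| ≤ D * N → (∀ p ∈ pz w, (p : ℤ) ∣ t) → (∀ a ∈ zs 𝒜, ∀ a' ∈ zs 𝒜, a + t ≠ a') →
      ρ * ∑ n ∈ Ioc 0 (N : ℤ), ∏ u ∈ zs 𝒜 ∪ (zs 𝒜).image (fun a => a + t), Lz (n + u) ≤ C * N * PiA (zs 𝒜) ^ 2)
    (hcong : ∀ h ∈ S, ∀ h' ∈ S, ∀ p ∈ pz w, (p : ℤ) ∣ (h : ℤ) - h') (hρ0 : 0 < ρ) (hρ1 : ρ ≤ 1) (hC : 0 ≤ C)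
    (hN : 1 ≤ N) (hW1 : 1 ≤ W) (hW : Real.log ((2 * D + 1) * N) ≤ W) (hSc : (f : ℝ) ^ 2 * W ^ (2 * f) ≤ S.card) :
    ∑ h ∈ S, ∑ h' ∈ S, ∑ n ∈ Ioc 0 (N : ℤ), (∏ u ∈ zs 𝒜, Lz (n + u)) * ∏ u ∈ zs 𝒜, Lz (n + ((h : ℤ) - h') + u) ≤
      (S.card : ℝ) ^ 2 * ((C + 1) * N * PiA (zs 𝒜) ^ 2) / ρ := by
  set P := PiA (zs 𝒜) with hP
  have hP1 : 1 ≤ P := one_le_PiA _
  have hN1 : (1 : ℝ) ≤ N := by exact_mod_cast hN
  have hN0 : (0 : ℝ) < N := by linarith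
  set F : ℤ → ℝ := fun t => ∑ n ∈ Ioc 0 (N : ℤ), (∏ u ∈ zs 𝒜, Lz (n + u)) * ∏ u ∈ zs 𝒜, Lz (n + t + u) with hF
  have hdisj : ∀ t : ℤ, (∀ a ∈ zs 𝒜, ∀ a' ∈ zs 𝒜, a + t ≠ a') →
      F t = ∑ n ∈ Ioc 0 (N : ℤ), ∏ u ∈ zs 𝒜 ∪ (zs 𝒜).image (fun a => a + t), Lz (n + u) := by
    intro t ht
    apply sum_congr rfl
    intro n _
    rw [prod_union, prod_image]
    · apply congrArg
      apply prod_congr rfl
      intro u _
      congr 1
      ring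
    · intro a _ b _ h
      simpa using h
    · rw [disjoint_left]
      intro a ha ha'
      obtain ⟨b, hb, hb'⟩ := mem_image.1 ha'
      exact ht b hb a ha hb'
  have hlog0 : 0 ≤ Real.log ((2 * D + 1) * N) := Real.log_nonneg (by nlinarith [(Nat.cast_nonneg D : (0 : ℝ) ≤ D)])
  have htriv : ∀ h ∈ S, ∀ h' ∈ S, F ((h : ℤ) - h') ≤ N * W ^ (2 * f) := by
    intro h hh h' hh'
    have h1 := mem_Icc.1 (hS hh)
    have h2 := mem_Icc.1 (hS hh')
    have hX1 : (1 : ℝ) ≤ (2 * D + 1) * N := by nlinarith [(Nat.cast_nonneg D : (0 : ℝ) ≤ D)]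
    have hh1 : (h : ℤ) ≤ D * N := by exact_mod_cast h1.2
    have key : ∀ n ∈ Ioc 0 (N : ℤ), (∏ u ∈ zs 𝒜, Lz (n + u)) * ∏ u ∈ zs 𝒜, Lz (n + ((h : ℤ) - h') + u) ≤ W ^ (2 * f) := by
      intro n hn
      rw [mem_Ioc] at hn
      have b1 : ∏ u ∈ zs 𝒜, Lz (n + u) ≤ W ^ f := by
        calc ∏ u ∈ zs 𝒜, Lz (n + u) ≤ ∏ u ∈ zs 𝒜, W := by
              apply prod_le_prod (fun u _ => Lz_nonneg _)
              intro u hu
              obtain ⟨a, ha, rfl⟩ := mem_zs.1 hu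
              refine (Lz_le hX1 ?_).trans hW
              have h3 : (a : ℤ) ≤ D * N := by exact_mod_cast hsz a ha
              have h4 : n + a ≤ (2 * D + 1) * N := by nlinarith [hn.2]
              exact_mod_cast h4
          _ = W ^ (zs 𝒜).card := by rw [prod_const]
          _ ≤ W ^ f := pow_le_pow_right₀ hW1 (by rw [card_zs]; exact h𝒜)
      have b2 : ∏ u ∈ zs 𝒜, Lz (n + ((h : ℤ) - h') + u) ≤ W ^ f := by
        calc ∏ u ∈ zs 𝒜, Lz (n + ((h : ℤ) - h') + u) ≤ ∏ u ∈ zs 𝒜, W := by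
              apply prod_le_prod (fun u _ => Lz_nonneg _)
              intro u hu
              obtain ⟨a, ha, rfl⟩ := mem_zs.1 hu
              refine (Lz_le hX1 ?_).trans hW
              have h3 : (a : ℤ) ≤ D * N := by exact_mod_cast hsz a ha
              have h4 : n + ((h : ℤ) - h') + a ≤ (2 * D + 1) * N := by
                have : (0 : ℤ) ≤ h' := by positivity
                nlinarith [hn.2]
              exact_mod_cast h4
          _ = W ^ (zs 𝒜).card := by rw [prod_const]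
          _ ≤ W ^ f := pow_le_pow_right₀ hW1 (by rw [card_zs]; exact h𝒜)
      calc _ ≤ W ^ f * W ^ f := mul_le_mul b1 b2 (prod_nonneg fun _ _ => Lz_nonneg _) (by positivity)
        _ = W ^ (2 * f) := by rw [← pow_add]; congr 1; ring
    calc F ((h : ℤ) - h') ≤ ∑ n ∈ Ioc 0 (N : ℤ), W ^ (2 * f) := sum_le_sum key
      _ = N * W ^ (2 * f) := by rw [sum_const, nsmul_eq_mul]; simp
  have hone : ∀ h ∈ S, ∑ h' ∈ S, F ((h : ℤ) - h') ≤ S.card * ((C + 1) * N * P ^ 2) / ρ := by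
    intro h hh
    have hhD := mem_Icc.1 (hS hh)
    rw [← sum_filter_add_sum_filter_not S (fun h' : ℕ => ∀ a ∈ zs 𝒜, ∀ a' ∈ zs 𝒜, a + ((h : ℤ) - h') ≠ a')]
    have s1 : ∑ h' ∈ S.filter (fun h' : ℕ => ∀ a ∈ zs 𝒜, ∀ a' ∈ zs 𝒜, a + ((h : ℤ) - h') ≠ a'), F ((h : ℤ) - h') ≤
        S.card * (C * N * P ^ 2 / ρ) := by
      have h1 : ∀ h' ∈ S.filter (fun h' : ℕ => ∀ a ∈ zs 𝒜, ∀ a' ∈ zs 𝒜, a + ((h : ℤ) - h') ≠ a'),
          F ((h : ℤ) - h') ≤ C * N * P ^ 2 / ρ := by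
        intro h' hh'
        rw [mem_filter] at hh'
        have hhD' := mem_Icc.1 (hS hh'.1)
        rw [le_div_iff₀ hρ0, mul_comm, hdisj _ hh'.2]
        apply hpair _ _ (hcong h hh h' hh'.1) hh'.2
        rw [abs_le]
        have e1 : (h : ℤ) ≤ D * N := by exact_mod_cast hhD.2
        have e2 : (h' : ℤ) ≤ D * N := by exact_mod_cast hhD'.2
        have e3 : (1 : ℤ) ≤ h := by exact_mod_cast hhD.1
        have e4 : (1 : ℤ) ≤ h' := by exact_mod_cast hhD'.1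
        constructor <;> linarith
      refine (sum_le_sum h1).trans ?_
      rw [sum_const, nsmul_eq_mul]
      apply mul_le_mul_of_nonneg_right _ (by positivity)
      exact_mod_cast card_le_card (filter_subset _ _)
    have s2 : ∑ h' ∈ S.filter (fun h' : ℕ => ¬ ∀ a ∈ zs 𝒜, ∀ a' ∈ zs 𝒜, a + ((h : ℤ) - h') ≠ a'), F ((h : ℤ) - h') ≤
        S.card * N := by
      have hcard : (S.filter (fun h' : ℕ => ¬ ∀ a ∈ zs 𝒜, ∀ a' ∈ zs 𝒜, a + ((h : ℤ) - h') ≠ a')).card ≤ f ^ 2 := by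
        have h1 : S.filter (fun h' : ℕ => ¬ ∀ a ∈ zs 𝒜, ∀ a' ∈ zs 𝒜, a + ((h : ℤ) - h') ≠ a') ⊆
            (zs 𝒜 ×ˢ zs 𝒜).image (fun x : ℤ × ℤ => (x.1 + h - x.2).toNat) := by
          intro h' hh'
          rw [mem_filter] at hh'
          have h2 := hh'.2
          push Not at h2
          obtain ⟨a, ha, a', ha', he⟩ := h2
          rw [mem_image]
          refine ⟨(a, a'), mem_product.2 ⟨ha, ha'⟩, ?_⟩
          simp only
          omega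
        refine (card_le_card h1).trans (card_image_le.trans ?_)
        rw [card_product, card_zs, sq]
        exact Nat.mul_le_mul h𝒜 h𝒜
      refine (sum_le_sum (g := fun _ => N * W ^ (2 * f)) fun h' hh' =>
        htriv h hh h' (mem_of_mem_filter _ hh')).trans ?_
      rw [sum_const, nsmul_eq_mul]
      have h2 : ((S.filter (fun h' : ℕ => ¬ ∀ a ∈ zs 𝒜, ∀ a' ∈ zs 𝒜, a + ((h : ℤ) - h') ≠ a')).card : ℝ) ≤ (f : ℝ) ^ 2 := by
        exact_mod_cast hcard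
      calc _ ≤ (f : ℝ) ^ 2 * (N * W ^ (2 * f)) := mul_le_mul_of_nonneg_right h2 (by positivity)
        _ = ((f : ℝ) ^ 2 * W ^ (2 * f)) * N := by ring
        _ ≤ S.card * N := mul_le_mul_of_nonneg_right hSc hN0.le
    have s3 : (N : ℝ) ≤ N * P ^ 2 / ρ := by
      rw [le_div_iff₀ hρ0]
      have h3 : (1 : ℝ) ≤ P ^ 2 := one_le_pow₀ hP1
      exact mul_le_mul_of_nonneg_left (hρ1.trans h3) hN0.le
    have s4 := mul_le_mul_of_nonneg_left s3 (Nat.cast_nonneg S.card : (0 : ℝ) ≤ S.card)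
    calc _ ≤ S.card * (C * N * P ^ 2 / ρ) + S.card * (N * P ^ 2 / ρ) := by linarith
      _ = _ := by ring
  calc ∑ h ∈ S, ∑ h' ∈ S, F ((h : ℤ) - h') ≤ ∑ h ∈ S, (S.card * ((C + 1) * N * P ^ 2) / ρ) := sum_le_sum hone
    _ = _ := by rw [sum_const, nsmul_eq_mul]; ring

end Pool.Agent.E8helper68.PJ
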