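import Pool.Agent.E8helper68.PJ.Fin3

set_option autoImplicit false

/-!
# Power saving in the number of exceptional Liouville shifts
-/

open Finset MeasureTheory
open scoped Real
open Pool.Agent.Helper112

namespace Pool.Agent.E8helper68.PJ

open Pool.Agent.TH823.PS Pool.Agent.W66 Pool.Agent.W66L
open Pool.Agent.H373R2.T7 (liR liR_norm pz mem_pz)
open Pool.Agent.Y842.JC (Lz Lz_nonneg Lz_le)

lemma Lz_nat (n a : ℕ) : Lz ((n : ℤ) + a) = ArithmeticFunction.vonMangoldt (n + a) := by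
  unfold Lz
  have : ((n : ℤ) + a).toNat = n + a := by omega
  rw [this]

/-- the joint correlation -/
noncomputable def SS (𝒜 : Finset ℕ) (b : ℕ → ℂ) (X h : ℕ) : ℂ :=
  ∑ n ∈ Icc 1 X, b n * (∏ a ∈ 𝒜, ((Lz ((n : ℤ) + a) : ℝ) : ℂ)) * li (n + h)

/-- the sum over a short interval -/
lemma SS_short {𝒜 : Finset ℕ} {b : ℕ → ℂ} (hb : ∀ n, ‖b n‖ ≤ 1) (h x Y : ℕ) :
    ‖SS 𝒜 b (x + Y) h - SS 𝒜 b x h‖ ≤ ∑ n ∈ Ioc (x : ℤ) (x + Y), ∏ u ∈ zs 𝒜, Lz (n + u) := by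
  classical
  have h1 : SS 𝒜 b (x + Y) h - SS 𝒜 b x h =
      ∑ n ∈ Ioc x (x + Y), b n * (∏ a ∈ 𝒜, ((Lz ((n : ℤ) + a) : ℝ) : ℂ)) * li (n + h) := by
    unfold SS
    have h2 : Icc 1 (x + Y) = Icc 1 x ∪ Ioc x (x + Y) := by
      ext n
      simp only [mem_union, mem_Icc, mem_Ioc]
      omega
    have h3 : Disjoint (Icc 1 x) (Ioc x (x + Y)) := by
      rw [disjoint_left]
      intro n hn hn'
      rw [mem_Icc] at hn
      rw [mem_Ioc] at hn'
      omega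
    rw [h2, sum_union h3]
    ring
  rw [h1]
  refine (norm_sum_le _ _).trans ?_
  have h4 : ∀ n ∈ Ioc x (x + Y), ‖b n * (∏ a ∈ 𝒜, ((Lz ((n : ℤ) + a) : ℝ) : ℂ)) * li (n + h)‖ ≤
      ∏ u ∈ zs 𝒜, Lz ((n : ℤ) + u) := by
    intro n _
    have hprod : ∏ t ∈ zs 𝒜, Lz ((n : ℤ) + t) = ∏ a ∈ 𝒜, Lz ((n : ℤ) + a) := by
      unfold zs
      rw [prod_map]
      rfl
    rw [norm_mul, norm_mul, hprod, ← Complex.ofReal_prod, Complex.norm_real,
      Real.norm_of_nonneg (prod_nonneg fun _ _ => Lz_nonneg _)]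
    have hp : 0 ≤ ∏ a ∈ 𝒜, Lz ((n : ℤ) + a) := prod_nonneg fun _ _ => Lz_nonneg _
    calc ‖b n‖ * (∏ a ∈ 𝒜, Lz ((n : ℤ) + a)) * ‖li (n + h)‖ ≤ 1 * (∏ a ∈ 𝒜, Lz ((n : ℤ) + a)) * 1 :=
          mul_le_mul (mul_le_mul_of_nonneg_right (hb n) hp) (li_LF.bd _) (norm_nonneg _) (by linarith)
      _ = _ := by ring
  refine (sum_le_sum h4).trans (le_of_eq ?_)
  refine sum_nbij (fun n => (n : ℤ)) ?_ ?_ ?_ ?_
  · intro n hn
    rw [mem_Ioc] at hn
    rw [mem_Ioc]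
    omega
  · intro n _ n' _ h3
    simpa using h3
  · intro n hn
    rw [mem_coe, mem_Ioc] at hn
    refine ⟨n.toNat, ?_, ?_⟩
    · rw [mem_coe, mem_Ioc]
      omega
    · simp only
      omega
  · intro n _
    rfl

/-- the truncation -/
lemma SS_trunc {𝒜 : Finset ℕ} {b : ℕ → ℂ} {x N h : ℕ} (hx : x ≤ N) :
    ∑ n ∈ Icc 1 N, ((if n ≤ x then b n else 0) * (∏ a ∈ 𝒜, ((Lz ((n : ℤ) + a) : ℝ) : ℂ))) * li (n + h) = SS 𝒜 b x h := by
  classical
  unfold SS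
  have h2 : Icc 1 x ⊆ Icc 1 N := Icc_subset_Icc_right hx
  rw [← sum_subset h2]
  · apply sum_congr rfl
    intro n hn
    rw [if_pos (mem_Icc.1 hn).2]
  · intro n hn hn'
    rw [mem_Icc] at hn hn'
    rw [if_neg (by omega)]
    ring

open Classical in
/-- **power saving for the exceptional Liouville shifts** -/
theorem joint_save (f D : ℕ) (hf : 1 ≤ f) (hD : 1 ≤ D) (ε : ℝ) (hε : 0 < ε) (hε1 : ε ≤ 1) (ε' : ℝ) (hε' : 0 < ε') :
    ∃ δ : ℝ, 0 < δ ∧ ∀ R0 : ℕ, ∃ R : ℕ, R0 ≤ R ∧ ∀ N : ℕ, (R : ℝ) ^ ε' ≤ N → N ≤ R →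
    ∀ 𝒜 : Finset ℕ, 𝒜.card ≤ f → (∀ a ∈ 𝒜, a ≤ D * N) → ∀ b : ℕ → ℂ, (∀ n, ‖b n‖ ≤ 1) →
    (((Icc 1 (D * N)).filter (fun h => ∃ X ≤ N, ε * PiA (zs 𝒜) * N < ‖SS 𝒜 b X h‖)).card : ℝ) ≤
      (N : ℝ) ^ (1 - δ) := by
  obtain ⟨E0, hE0⟩ := good_scales
  obtain ⟨T0, hT0⟩ := exists_nat_ge (2 / ε')
  obtain ⟨E, A, B, Q1, hE, hA, hTB, hone⟩ := one_class f D hf hD (ε / 2) (by positivity) (by linarith) (T0 + 1) (by omega) E0
  obtain ⟨C, hC, N1, hshort⟩ := short f hf D hD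
  obtain ⟨J1, hJ1⟩ := exists_nat_ge (4 * C / ε)
  have hJ1pos : (0 : ℝ) < J1 := lt_of_lt_of_le (by positivity) hJ1
  have hJ1p : 1 ≤ J1 := by exact_mod_cast hJ1pos
  obtain ⟨Q2, hQ2⟩ := logpow ((2 * J1 + 1) ^ 2) 0
  obtain ⟨Q3, hQ3⟩ := exists_nat_ge ((4 / ε) ^ 4)
  have hB3 : 3 ≤ B := by nlinarith
  have hBr : (3 : ℝ) ≤ B := by exact_mod_cast hB3
  refine ⟨1 / (200 * B), by positivity, fun R0 => ?_⟩
  obtain ⟨Q, hQ, hne⟩ := hE0 E hE 6 (by norm_num) (Q1 + Q2 + Q3 + N1 + R0 + 2 * J1 + 2 * D + 4)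
  have hQpos : 1 ≤ Q := by omega
  have hQr : (4 : ℝ) ≤ Q := by exact_mod_cast (by omega : 4 ≤ Q)
  have hQ0 : (0 : ℝ) < Q := by linarith
  set q := qq Q with hq
  have hq1 : 1 ≤ q := one_le_qq hQpos
  have hq0 : 0 < q := by linarith
  have hq100 : q ^ 100 = Q := qq_pow
  refine ⟨Q ^ (B - 2), ?_, fun N hN1 hN2 𝒜 h𝒜 hsz b hb => ?_⟩
  · have : Q ≤ Q ^ (B - 2) := Nat.le_self_pow (by omega) Q
    omega
  -- the size of `N`
  have hT : (A + 1 : ℝ) ≤ ((B - 2 : ℕ) : ℝ) * ε' := by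
    have h1 : ((T0 + 1) * A : ℕ) ≤ B - 2 := by omega
    have h2 : (((T0 + 1) * A : ℕ) : ℝ) ≤ ((B - 2 : ℕ) : ℝ) := by exact_mod_cast h1
    have h3 : (1 : ℝ) ≤ A := by exact_mod_cast hA
    have h4 : 2 / ε' ≤ (T0 : ℝ) + 1 := by linarith
    have h5 : 2 ≤ ((T0 : ℝ) + 1) * ε' := by
      rwa [div_le_iff₀ hε'] at h4
    push_cast at h2
    have h6 : ((T0 : ℝ) + 1) * A * ε' ≤ ((B - 2 : ℕ) : ℝ) * ε' := mul_le_mul_of_nonneg_right h2 hε'.le
    nlinarith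
  have hNA : Q ^ (A + 1) ≤ N := by
    have h1 : ((Q : ℝ)) ^ (A + 1) ≤ N := by
      refine le_trans ?_ hN1
      push_cast
      rw [← Real.rpow_natCast (Q : ℝ) (B - 2), ← Real.rpow_mul hQ0.le, ← Real.rpow_natCast]
      apply Real.rpow_le_rpow_of_exponent_le (by linarith)
      push_cast
      exact hT
    exact_mod_cast h1
  have hNB : (2 * D + 1) * N ≤ Q ^ (B - 1) := by
    calc (2 * D + 1) * N ≤ Q * Q ^ (B - 2) := Nat.mul_le_mul (by omega) hN2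
      _ = Q ^ (B - 1) := by
          rw [← pow_succ']
          congr 1
          omega
  have hQN : Q ≤ N := (Nat.le_self_pow (by omega) Q).trans hNA
  have hNr : (4 : ℝ) ≤ N := hQr.trans (by exact_mod_cast hQN)
  have hNp : (0 : ℝ) < N := by linarith
  obtain ⟨M, hM1, hMq, hcls⟩ := hone Q (by omega) hne N hNA hNB
  have hM0 : (0 : ℝ) < M := by exact_mod_cast hM1
  set P := PiA (zs 𝒜) with hP
  have hP1 : 1 ≤ P := one_le_PiA _
  -- the grid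
  set G := N / J1 with hG
  have hG1 : 1 ≤ G := by
    rw [hG, Nat.le_div_iff_mul_le (by omega)]
    omega
  have hGr : (G : ℝ) ≤ N / J1 := Nat.cast_div_le
  have hgrid : ∀ X ≤ N, X / G < 2 * J1 + 1 := by
    intro X hX
    rw [Nat.div_lt_iff_lt_mul (by omega)]
    have h1 : N < (G + 1) * J1 := by
      rw [hG]
      exact Nat.lt_mul_of_div_lt (Nat.lt_succ_self _) (by omega)
    nlinarith
  have hdiff : ∀ X ≤ N, ∀ h, ‖SS 𝒜 b X h‖ ≤ ‖SS 𝒜 b (X / G * G) h‖ + ε / 2 * P * N := by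
    intro X hX h
    have h1 : X / G * G + X % G = X := Nat.div_add_mod' X G
    have h2 := SS_short (𝒜 := 𝒜) hb h (X / G * G) (X % G)
    rw [h1] at h2
    have h3 := hshort N (by omega) (zs 𝒜) (by rw [card_zs]; exact h𝒜) (by
      intro u hu
      obtain ⟨a, ha, rfl⟩ := mem_zs.1 hu
      rw [abs_of_nonneg (Int.natCast_nonneg a)]
      exact_mod_cast hsz a ha) (X / G * G) (X % G) (by rw [h1]; exact hX)
    have h4 : ((X % G : ℕ) : ℝ) ≤ N / J1 := by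
      refine le_trans ?_ hGr
      exact_mod_cast (Nat.mod_lt X (by omega)).le
    have h5 : C * ((X % G : ℕ) : ℝ) * P ≤ ε / 4 * P * N := by
      have h6 : C * ((X % G : ℕ) : ℝ) ≤ ε / 4 * N := by
        have h7 : C * ((X % G : ℕ) : ℝ) ≤ C * (N / J1) := mul_le_mul_of_nonneg_left h4 (by linarith)
        refine h7.trans ?_
        rw [mul_div_assoc', div_le_iff₀ hJ1pos]
        rw [div_le_iff₀ hε] at hJ1
        nlinarith
      calc C * ((X % G : ℕ) : ℝ) * P ≤ (ε / 4 * N) * P := mul_le_mul_of_nonneg_right h6 (by linarith)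
        _ = _ := by ring
    have h6 : (N : ℝ) ^ (3 / 4 : ℝ) ≤ ε / 4 * P * N := by
      have h7 : 4 / ε ≤ (N : ℝ) ^ (1 / 4 : ℝ) := by
        have h8 : (4 / ε) ^ 4 ≤ (N : ℝ) := hQ3.trans (by exact_mod_cast (by omega : Q3 ≤ N))
        have h9 := Real.rpow_le_rpow (by positivity) h8 (by norm_num : (0 : ℝ) ≤ 1 / 4)
        refine le_trans (le_of_eq ?_) h9
        rw [← Real.rpow_natCast, ← Real.rpow_mul (by positivity)]
        norm_num
      have h8 : (N : ℝ) ^ (3 / 4 : ℝ) * (N : ℝ) ^ (1 / 4 : ℝ) = N := by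
        rw [← Real.rpow_add hNp]
        norm_num
      have h9 : (N : ℝ) ^ (3 / 4 : ℝ) * (4 / ε) ≤ N :=
        (mul_le_mul_of_nonneg_left h7 (by positivity)).trans h8.le
      have h10 : (N : ℝ) ^ (3 / 4 : ℝ) ≤ ε / 4 * N := by
        have h11 := mul_le_mul_of_nonneg_left h9 (by positivity : 0 ≤ ε / 4)
        refine le_trans (le_of_eq ?_) h11
        field_simp
      refine h10.trans ?_
      have h12 := mul_le_mul_of_nonneg_left hP1 (by positivity : 0 ≤ ε / 4 * N)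
      linarith
    have h7 : SS 𝒜 b X h = SS 𝒜 b (X / G * G) h + (SS 𝒜 b X h - SS 𝒜 b (X / G * G) h) := by ring
    rw [h7]
    refine (norm_add_le _ _).trans ?_
    have h8 := h2.trans h3
    linarith
  -- the classes
  set Cl : ℕ → ℕ → Finset ℕ := fun j c => (Icc 1 (D * N)).filter (fun h => h ≡ c [MOD M] ∧
    ε / 2 * P * N ≤ ‖SS 𝒜 b (j * G) h‖ ∧ j * G ≤ N) with hCl
  have hsub : (Icc 1 (D * N)).filter (fun h => ∃ X ≤ N, ε * P * N < ‖SS 𝒜 b X h‖) ⊆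
      (range (2 * J1 + 1) ×ˢ range M).biUnion (fun x => Cl x.1 x.2) := by
    intro h hh
    rw [mem_filter] at hh
    obtain ⟨hh1, X, hX, hXb⟩ := hh
    rw [mem_biUnion]
    refine ⟨(X / G, h % M), mem_product.2 ⟨mem_range.2 (hgrid X hX), mem_range.2 (Nat.mod_lt _ (by omega))⟩, ?_⟩
    rw [hCl]
    simp only
    rw [mem_filter]
    refine ⟨hh1, (Nat.mod_modEq h M).symm, ?_, (Nat.div_mul_le_self X G).trans hX⟩
    have h1 := hdiff X hX h
    linarith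
  have hclass : ∀ x ∈ range (2 * J1 + 1) ×ˢ range M, ((Cl x.1 x.2).card : ℝ) ≤ N / q ^ 2 := by
    intro x _
    rw [le_div_iff₀ (by positivity)]
    apply le_of_lt
    by_cases hjN : x.1 * G ≤ N
    · refine hcls 𝒜 h𝒜 hsz (fun n => (if n ≤ x.1 * G then b n else 0) * (∏ a ∈ 𝒜, ((Lz ((n : ℤ) + a) : ℝ) : ℂ))) ?_ x.2
        (Cl x.1 x.2) (filter_subset _ _) ?_ ?_
      · intro n _
        have hp : 0 ≤ ∏ a ∈ 𝒜, Lz ((n : ℤ) + a) := prod_nonneg fun _ _ => Lz_nonneg _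
        rw [norm_mul, ← Complex.ofReal_prod, Complex.norm_real, Real.norm_of_nonneg hp]
        apply mul_le_of_le_one_left hp
        split_ifs
        · exact hb n
        · simp
      · intro h hh
        exact (mem_filter.1 hh).2.1
      · intro h hh
        rw [SS_trunc hjN]
        exact (mem_filter.1 hh).2.2.1
    · have h1 : Cl x.1 x.2 = ∅ := by
        apply filter_eq_empty_iff.2
        intro h _ h2
        exact hjN h2.2.2
      rw [h1]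
      simpa using hNp
  have hcount : (((Icc 1 (D * N)).filter (fun h => ∃ X ≤ N, ε * P * N < ‖SS 𝒜 b X h‖)).card : ℝ) ≤
      (2 * J1 + 1) * (N / q) := by
    calc (((Icc 1 (D * N)).filter (fun h => ∃ X ≤ N, ε * P * N < ‖SS 𝒜 b X h‖)).card : ℝ) ≤
        (((range (2 * J1 + 1) ×ˢ range M).biUnion (fun x => Cl x.1 x.2)).card : ℝ) := by
          exact_mod_cast card_le_card hsub
      _ ≤ ∑ x ∈ range (2 * J1 + 1) ×ˢ range M, ((Cl x.1 x.2).card : ℝ) := by exact_mod_cast card_biUnion_le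
      _ ≤ ∑ x ∈ range (2 * J1 + 1) ×ˢ range M, (N / q ^ 2 : ℝ) := sum_le_sum hclass
      _ = (2 * J1 + 1) * M * (N / q ^ 2) := by
          rw [sum_const, nsmul_eq_mul, card_product, card_range, card_range]
          push_cast
          ring
      _ ≤ (2 * J1 + 1) * q * (N / q ^ 2) := by gcongr
      _ = _ := by field_simp
  refine hcount.trans ?_
  -- the numbers
  have h1 : ((2 * J1 + 1 : ℝ)) ^ 2 ≤ q := by
    have h2 := hQ2 Q (by omega)
    rw [pow_zero, mul_one] at h2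
    exact h2
  have h2 : (2 * J1 + 1 : ℝ) ≤ q ^ (1 / 2 : ℝ) := by
    rw [← Real.sqrt_eq_rpow]
    exact Real.le_sqrt_of_sq_le h1
  have h3 : (N : ℝ) ^ (1 / (200 * B) : ℝ) ≤ q ^ (1 / 2 : ℝ) := by
    have h4 : (N : ℝ) ≤ q ^ ((100 * B : ℕ) : ℝ) := by
      rw [Real.rpow_natCast, pow_mul, hq100]
      have h5 : N ≤ Q ^ B := hN2.trans (Nat.pow_le_pow_right (by omega) (by omega))
      exact_mod_cast h5
    have h5 := Real.rpow_le_rpow hNp.le h4 (by positivity : (0 : ℝ) ≤ 1 / (200 * B))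
    rw [← Real.rpow_mul hq0.le] at h5
    refine h5.trans (le_of_eq ?_)
    congr 1
    push_cast
    field_simp
    norm_num
  rw [Real.rpow_sub hNp, Real.rpow_one, le_div_iff₀ (by positivity)]
  calc (2 * J1 + 1) * (N / q) * (N : ℝ) ^ (1 / (200 * B) : ℝ) ≤ q ^ (1 / 2 : ℝ) * (N / q) * q ^ (1 / 2 : ℝ) := by
        gcongr
    _ = (q ^ (1 / 2 : ℝ) * q ^ (1 / 2 : ℝ)) * (N / q) := by ring
    _ = N := by
        rw [← Real.rpow_add hq0]
        norm_num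
        field_simp

end Pool.Agent.E8helper68.PJ
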