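import Pool.Agent.E8helper68.PJ.Fam
import Pool.Agent.TH823.PS.EnergyF

set_option autoImplicit false

/-!
# The energies of the dilates on a long range of scales
-/

open Finset MeasureTheory
open scoped Real
open Pool.Agent.Helper112

namespace Pool.Agent.E8helper68.PJ

open Pool.Agent.TH823.PS Pool.Agent.W66 Pool.Agent.W66L

lemma card_rr (M : ℕ) : (rr M).card = M.totient := by
  unfold rr
  rw [Nat.totient_eq_card_coprime]
  congr 1
  apply filter_congr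
  intro a _
  exact Nat.coprime_comm

lemma card_PP_le (y z : ℕ) : (PP y z).card ≤ z := by
  have h1 : PP y z ⊆ Icc 1 z := by
    intro p hp
    rw [mem_PP] at hp
    rw [mem_Icc]
    omega
  have := card_le_card h1
  rwa [Nat.card_Icc, Nat.add_sub_cancel] at this

/-- the product of two characters in the multiplier -/
lemma mult_two {M q : ℕ} [NeZero M] [NeZero q] (χ : DirichletCharacter ℂ M) (χ' : DirichletCharacter ℂ q) (W : ℝ)
    {P : Finset ℕ} (hP : ∀ p ∈ P, p.Coprime (M * q)) : ∃ Ψ : DirichletCharacter ℂ (M * q), ∀ ξ : ℝ,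
    mult W P (fun p => -(χ (p : ZMod M)) * χ' (p : ZMod q) / p) ξ = mult W P (fun p => -(Ψ (p : ZMod (M * q)) / p)) ξ := by
  refine ⟨(DirichletCharacter.changeLevel (dvd_mul_right M q) χ) *
      (DirichletCharacter.changeLevel (dvd_mul_left q M) χ'), fun ξ => ?_⟩
  unfold mult
  congr 1
  apply sum_congr rfl
  intro p hp
  beta_reduce
  rw [MulChar.mul_apply, changeLevel_nat _ _ (hP p hp), changeLevel_nat _ _ (hP p hp)]
  ring

theorem small (η : ℝ) (hη : 0 < η) : ∃ E1 : ℕ, 1 ≤ E1 ∧ ∀ E : ℕ, E1 ≤ E → ∃ B1 : ℕ, ∀ B : ℕ, B1 ≤ B →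
    ∃ Q1 : ℕ, ∀ Q : ℕ, Q1 ≤ Q → NE 6 E Q → ∀ (M R : ℕ), 1 ≤ M → 1 ≤ R → M * R ≤ Q → ∀ (ρ : ℝ) (l α : ℕ → ℂ),
    LF l → Al M ρ α →
    ∑ a ∈ rr M, ∫ x, EE (1 / (Q : ℝ) ^ 3) R (Ioc (Q ^ (13 * E)) (Q ^ B)) (fun n => FF l α a n / n) x ≤
      η * (ρ * M.totient * (B * Real.log Q)) := by
  obtain ⟨CW, hCW, hW⟩ := WW_est
  obtain ⟨C, hC, hlow⟩ := lower_all
  -- the size of `W`
  set W0 : ℝ := 20 * C + 4 + 10 ^ 7 / η with hW0
  have hW0p : 0 < W0 := by positivity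
  obtain ⟨E1, hE1⟩ := exists_nat_ge (Real.exp (W0 + CW))
  refine ⟨E1 + 1, by omega, fun E hE => ?_⟩
  obtain ⟨B1, hB1⟩ := exists_nat_ge ((E : ℝ) * (10 ^ 7 / η))
  refine ⟨B1 + 13 * E + 1, fun B hB => ?_⟩
  set K1 : ℝ := Real.sqrt (1224 / η) with hK1
  have hK1p : 0 < K1 := Real.sqrt_pos.2 (by positivity)
  have hK1s : K1 ^ 2 = 1224 / η := Real.sq_sqrt (by positivity)
  obtain ⟨Q1, hQ1⟩ := exists_nat_ge (4 * π * K1 + 3)
  refine ⟨Q1 + 3, fun Q hQ hne M R hM hR hMR ρ l α hl hα => ?_⟩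
  have hMQ : M ≤ Q := (Nat.le_mul_of_pos_right M hR).trans hMR
  have hRQ : R ≤ Q := (Nat.le_mul_of_pos_left R hM).trans hMR
  have : NeZero M := ⟨by omega⟩
  have hQ3 : 3 ≤ Q := by omega
  have hQr : (3 : ℝ) ≤ Q := by exact_mod_cast hQ3
  have hQ1r : 4 * π * K1 + 3 ≤ (Q : ℝ) := by
    refine hQ1.trans ?_
    exact_mod_cast (by omega : Q1 ≤ Q)
  have hL := log_ge_one hQ3
  set L := Real.log Q with hLdef
  have hE0 : 1 ≤ E := by omega
  have hEr : (1 : ℝ) ≤ E := by exact_mod_cast hE0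
  have hBr : (1 : ℝ) ≤ B := by exact_mod_cast (by omega : 1 ≤ B)
  set y := Q ^ 6 with hy
  set z := Q ^ (6 * E) with hz
  set M₀ := Q ^ (13 * E) with hM0
  set N := Q ^ B with hN
  have hyz : y ≤ z := Nat.pow_le_pow_right (by omega) (by omega)
  have hzM : z ≤ M₀ := Nat.pow_le_pow_right (by omega) (by omega)
  have hMN : M₀ ≤ N := Nat.pow_le_pow_right (by omega) (by omega)
  have hQy : Q ≤ y := Nat.le_self_pow (by omega) Q
  have hz1 : 1 ≤ z := Nat.one_le_pow _ _ (by omega)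
  have hMM0 : M ≤ M₀ := hMQ.trans (hQy.trans (hyz.trans hzM))
  have hW1 := (abs_le.1 (hW Q 6 (6 * E) hQ3 (by omega) (by omega))).1
  have hW2 : Real.log (((6 * E : ℕ) : ℝ) / (6 : ℕ)) = Real.log E := by
    congr 1; push_cast; field_simp
  rw [hW2] at hW1
  have hWE : W0 + CW ≤ Real.log E := by
    rw [Real.le_log_iff_exp_le (by linarith)]
    refine hE1.trans ?_
    exact_mod_cast (by omega : E1 ≤ E)
  have hWW : W0 ≤ WP (PP y z) := by
    rw [WP_eq]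
    linarith
  set P := PP y z with hP
  set W := WP P with hWdef
  have hη1 : 0 < 10 ^ 7 / η := by positivity
  have hWp : 0 < W := by linarith
  have hW4 : 4 ≤ W := by linarith
  have hQ0 : (0 : ℝ) < Q := by positivity
  set h : ℝ := 1 / (Q : ℝ) ^ 3 with hh
  have h0 : 0 < h := by positivity
  have h1 : h ≤ 1 := by
    rw [hh, div_le_one (by positivity)]
    exact one_le_pow₀ (by linarith)
  have hκ : 0 < W / 20 := by positivity
  have hΞ : 0 < K1 * (Q : ℝ) ^ 3 := by positivity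
  have hcopM : ∀ m : ℕ, 0 < m → m ≤ Q → ∀ p ∈ P, p.Coprime m := by
    intro m hm0 hmQ p hp
    rw [hP, mem_PP] at hp
    rw [Nat.Prime.coprime_iff_not_dvd hp.2]
    intro hd
    have := Nat.le_of_dvd hm0 hd
    omega
  have hm : ∀ χ : DirichletCharacter ℂ M, ∀ (q : ℕ) [NeZero q], q ≤ R → ∀ χ' : DirichletCharacter ℂ q, ∀ ξ : ℝ,
      |ξ| ≤ K1 * (Q : ℝ) ^ 3 →
      W / 20 ≤ ‖mult W P (fun p => -(χ (p : ZMod M)) * χ' (p : ZMod q) / p) ξ‖ := by
    intro χ q _ hq χ' ξ hξ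
    have hq0 : 0 < q := Nat.pos_of_ne_zero (NeZero.ne q)
    have hMq : M * q ≤ Q := (Nat.mul_le_mul_left M hq).trans hMR
    have hMq0 : 0 < M * q := Nat.mul_pos (by omega) hq0
    have : NeZero (M * q) := ⟨hMq0.ne'⟩
    obtain ⟨Ψ, hΨ⟩ := mult_two χ χ' W (hcopM (M * q) hMq0 hMq)
    rw [hΨ]
    refine le_trans ?_ (mult_lower Ψ y z ξ)
    have h2 := hlow (M * q) y z (hQ3.trans hQy) hyz (hMq.trans hQy)
      (fun χ' hχ1 hχ2 => hne (M * q) hMq χ' hχ1 hχ2) (2 * π * ξ) (by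
        unfold lq ell
        have hq1 : (1 : ℝ) ≤ ((M * q : ℕ) : ℝ) := by exact_mod_cast hMq0
        have hq2 : Real.log ((M * q : ℕ) : ℝ) ≤ L := Real.log_le_log (by linarith) (by exact_mod_cast hMq)
        have h3 : |2 * (2 * π * ξ)| + 3 ≤ (Q : ℝ) ^ 5 := by
          have e1 : |2 * (2 * π * ξ)| = 4 * π * |ξ| := by
            rw [show 2 * (2 * π * ξ) = (4 * π) * ξ by ring, abs_mul, abs_of_pos (by positivity)]
          rw [e1]
          have h4 : 4 * π * |ξ| ≤ 4 * π * (K1 * (Q : ℝ) ^ 3) :=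
            mul_le_mul_of_nonneg_left hξ (by positivity)
          have h5 : (1 : ℝ) ≤ (Q : ℝ) ^ 3 := one_le_pow₀ (by linarith)
          have h6 : 4 * π * (K1 * (Q : ℝ) ^ 3) + 3 ≤ (4 * π * K1 + 3) * (Q : ℝ) ^ 3 := by linarith
          have h7 : (4 * π * K1 + 3) * (Q : ℝ) ^ 3 ≤ (Q : ℝ) * (Q : ℝ) ^ 3 :=
            mul_le_mul_of_nonneg_right hQ1r (by positivity)
          have h8 : (Q : ℝ) * (Q : ℝ) ^ 3 ≤ (Q : ℝ) ^ 5 := by
            rw [← pow_succ']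
            exact pow_le_pow_right₀ (by linarith) (by norm_num)
          linarith
        have h9 : Real.log (|2 * (2 * π * ξ)| + 3) ≤ 5 * L := by
          calc Real.log (|2 * (2 * π * ξ)| + 3) ≤ Real.log ((Q : ℝ) ^ 5) :=
                Real.log_le_log (by positivity) h3
            _ = 5 * L := by rw [Real.log_pow]; push_cast; rfl
        have h10 : Real.log ((y : ℕ) : ℝ) = 6 * L := by
          rw [hy]; push_cast; rw [Real.log_pow]; push_cast; rfl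
        rw [h10]
        linarith) Ψ
    rw [← WP_eq, ← hP, ← hWdef] at h2
    rw [← hP, ← hWdef]
    linarith
  have key := fam_energy (F := R) (P := P) (S := Ioc M₀ N) (K := Ioc M₀ (N * z)) hl hα
    (fun p hp => ⟨(mem_PP.1 hp).2, lt_of_le_of_lt (hRQ.trans hQy) (mem_PP.1 hp).1.1, hcopM M (by omega) hMQ p hp⟩)
    (fun s hs => by rw [mem_Ioc] at hs; omega)
    (fun s hs => by
      rw [mem_Ioc] at hs ⊢
      exact ⟨hs.1, hs.2.trans (Nat.le_mul_of_pos_right N (by positivity))⟩)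
    (fun s hs => by rw [mem_Ioc] at hs; omega)
    (fun s hs p hp => by
      rw [mem_Ioc] at hs ⊢
      rw [hP, mem_PP] at hp
      exact ⟨lt_of_lt_of_le hs.1 (Nat.le_mul_of_pos_left s hp.2.pos),
        (Nat.mul_le_mul hp.1.2 hs.2).trans (le_of_eq (mul_comm _ _))⟩)
    h0 h1 hκ hΞ hm
  refine key.trans ?_
  have hcoef : ∀ n : ℕ, M₀ < n → 6 * (15 * (n : ℝ) + (1 + (R : ℝ) ^ 2) / h) ≤ 102 * n := by
    intro n hn
    have h2 : (1 + (R : ℝ) ^ 2) / h ≤ 2 * n := by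
      rw [hh, div_div_eq_mul_div, div_one]
      have h3 : (Q : ℝ) ^ 6 ≤ n := by
        have : Q ^ 6 ≤ n := (hyz.trans hzM).trans hn.le
        exact_mod_cast this
      have h4 : (1 : ℝ) ≤ (Q : ℝ) ^ 2 := one_le_pow₀ (by linarith)
      have h5 : (0 : ℝ) < (Q : ℝ) ^ 3 := by positivity
      have h9 : (R : ℝ) ^ 2 ≤ (Q : ℝ) ^ 2 := pow_le_pow_left₀ (Nat.cast_nonneg _) (by exact_mod_cast hRQ) 2
      have h6 : (1 + (R : ℝ) ^ 2) * (Q : ℝ) ^ 3 ≤ 2 * (Q : ℝ) ^ 5 := by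
        have h8 := mul_le_mul_of_nonneg_right h4 h5.le
        have h10 := mul_le_mul_of_nonneg_right h9 h5.le
        linarith
      have h7 : (Q : ℝ) ^ 5 ≤ (Q : ℝ) ^ 6 := pow_le_pow_right₀ (by linarith) (by norm_num)
      linarith
    linarith
  have hρ : 0 ≤ ρ := (hα.wt (by omega) (Nat.coprime_one_left M)).rho_nonneg (by omega)
  have e1 : Real.log ((N * z : ℕ) : ℝ) = (B + 6 * E) * L := by
    rw [hN, hz, ← pow_add]
    push_cast
    rw [Real.log_pow]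
    push_cast
    ring
  have e2 : Real.log ((z : ℕ) : ℝ) = 6 * E * L := by
    rw [hz]; push_cast; rw [Real.log_pow]; push_cast; ring
  -- first sum
  have s1 : ∀ a ∈ rr M, ∑ n ∈ Ioc M₀ (N * z), 6 * (15 * (n : ℝ) + (1 + (R : ℝ) ^ 2) / h) *
      (‖α (a * n)‖ ^ 2 * Dl P (Ioc M₀ N) n ^ 2 / (n : ℝ) ^ 2) ≤
      102 * (ρ * (8 * (W + 4) * (1 + (B + 6 * E) * L) + 8 * W ^ 2 * (1 + 6 * E * L))) := by
    intro a ha
    have h2 := Dl_log (hα.wt (by omega) (mem_rr.1 ha).2) (by omega) (P := P) (fun p hp => (mem_PP.1 hp).2)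
      (fun p hp => (hcopM M (by omega) hMQ p hp).symm) hz1 (fun p hp => (mem_PP.1 hp).1.2) hMM0 (by
        calc M * P.card ^ 2 ≤ Q * z ^ 2 := Nat.mul_le_mul hMQ (Nat.pow_le_pow_left (card_PP_le _ _) 2)
          _ = Q ^ (12 * E + 1) := by rw [hz]; ring
          _ ≤ M₀ := Nat.pow_le_pow_right (by omega) (by omega)) hMN
    rw [e1, e2] at h2
    refine le_trans ?_ (mul_le_mul_of_nonneg_left h2 (by norm_num))
    rw [mul_sum]
    apply sum_le_sum
    intro n hn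
    rw [mem_Ioc] at hn
    have hn0 : (0 : ℝ) < n := by exact_mod_cast (by omega : 0 < n)
    calc 6 * (15 * (n : ℝ) + (1 + (R : ℝ) ^ 2) / h) * (‖α (a * n)‖ ^ 2 * Dl P (Ioc M₀ N) n ^ 2 / (n : ℝ) ^ 2) ≤
        102 * n * (‖α (a * n)‖ ^ 2 * Dl P (Ioc M₀ N) n ^ 2 / (n : ℝ) ^ 2) :=
          mul_le_mul_of_nonneg_right (hcoef n hn.1) (by positivity)
      _ = _ := by field_simp
  have s2 : ∀ a ∈ rr M, ∑ n ∈ Ioc M₀ N, 6 * (15 * (n : ℝ) + (1 + (R : ℝ) ^ 2) / h) *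
      (‖α (a * n)‖ ^ 2 / (n : ℝ) ^ 2) ≤ 102 * (2 * ρ * (1 + B * L)) := by
    intro a ha
    have h2 := wt_log (hα.wt (by omega) (mem_rr.1 ha).2) (by omega) hMM0 hMN
    have h3 : Real.log ((N : ℝ) / M₀) ≤ B * L := by
      have h4 : Real.log ((N : ℝ) / M₀) ≤ Real.log N := by
        have hM01 : (1 : ℝ) ≤ M₀ := by exact_mod_cast Nat.one_le_pow _ _ (by omega)
        have hN0 : (0 : ℝ) < N := by rw [hN]; positivity
        apply Real.log_le_log (by positivity)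
        exact div_le_self hN0.le hM01
      refine h4.trans (le_of_eq ?_)
      rw [hN]; push_cast; rw [Real.log_pow]
    have h4 : 2 * ρ * (1 + Real.log ((N : ℝ) / M₀)) ≤ 2 * ρ * (1 + B * L) := by
      apply mul_le_mul_of_nonneg_left _ (by positivity)
      linarith
    refine le_trans ?_ (mul_le_mul_of_nonneg_left (h2.trans h4) (by norm_num))
    rw [mul_sum]
    apply sum_le_sum
    intro n hn
    rw [mem_Ioc] at hn
    have hn0 : (0 : ℝ) < n := by exact_mod_cast (by omega : 0 < n)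
    calc 6 * (15 * (n : ℝ) + (1 + (R : ℝ) ^ 2) / h) * (‖α (a * n)‖ ^ 2 / (n : ℝ) ^ 2) ≤
        102 * n * (‖α (a * n)‖ ^ 2 / (n : ℝ) ^ 2) :=
          mul_le_mul_of_nonneg_right (hcoef n hn.1) (by positivity)
      _ = _ := by field_simp
  have s1' := sum_le_sum s1
  have s2' := sum_le_sum s2
  rw [sum_const, card_rr, nsmul_eq_mul] at s1' s2'
  set Φ : ℝ := (M.totient : ℝ) with hΦ
  have hΦ0 : 0 ≤ Φ := Nat.cast_nonneg _
  have hBE : (E : ℝ) * (10 ^ 7 / η) ≤ B := by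
    refine hB1.trans ?_
    exact_mod_cast (by omega : B1 ≤ B)
  have hBE2 : (6 * E : ℝ) ≤ B := by exact_mod_cast (by omega : 6 * E ≤ B)
  have hBL : 1 ≤ B * L := one_le_mul_of_one_le_of_one_le hBr hL.le
  have hELB : 6 * E * L ≤ B * L := mul_le_mul_of_nonneg_right hBE2 (by linarith)
  have hEL1 : 1 ≤ E * L := one_le_mul_of_one_le_of_one_le hEr hL.le
  -- final numerics
  have t2 : (1 / (h * (K1 * (Q : ℝ) ^ 3))) ^ 2 * (Φ * (102 * (2 * ρ * (1 + B * L)))) ≤ η / 3 * (ρ * Φ * (B * L)) := by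
    have h2 : h * (K1 * (Q : ℝ) ^ 3) = K1 := by rw [hh]; field_simp
    rw [h2, one_div, inv_pow, hK1s]
    have h3 : 1 + B * L ≤ 2 * (B * L) := by linarith
    have h4 : Φ * (102 * (2 * ρ * (1 + B * L))) ≤ Φ * (102 * (2 * ρ * (2 * (B * L)))) := by gcongr
    refine (mul_le_mul_of_nonneg_left h4 (by positivity)).trans (le_of_eq ?_)
    field_simp
    ring
  have t1 : (1 / (W / 20)) ^ 2 * (Φ * (102 * (ρ * (8 * (W + 4) * (1 + (B + 6 * E) * L) + 8 * W ^ 2 * (1 + 6 * E * L))))) ≤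
      2 * η / 3 * (ρ * Φ * (B * L)) := by
    have a1 : 8 * (W + 4) * (1 + (B + 6 * E) * L) ≤ 48 * W * (B * L) := by
      have h2 : W + 4 ≤ 2 * W := by linarith
      have h3 : 1 + (B + 6 * E) * L ≤ 3 * (B * L) := by linarith
      calc 8 * (W + 4) * (1 + (B + 6 * E) * L) ≤ 8 * (2 * W) * (3 * (B * L)) := by gcongr
        _ = _ := by ring
    have a2 : 8 * W ^ 2 * (1 + 6 * E * L) ≤ 56 * W ^ 2 * (E * L) := by
      have h3 : 1 + 6 * E * L ≤ 7 * (E * L) := by linarith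
      calc 8 * W ^ 2 * (1 + 6 * E * L) ≤ 8 * W ^ 2 * (7 * (E * L)) := by gcongr
        _ = _ := by ring
    have a3 : 10 ^ 7 ≤ W * η := by
      have : 10 ^ 7 / η ≤ W := by linarith
      rwa [div_le_iff₀ hη] at this
    have a4 : 10 ^ 7 * E ≤ B * η := by
      rw [mul_div_assoc'] at hBE
      rw [div_le_iff₀ hη] at hBE
      linarith
    have a5 : (1 / (W / 20)) ^ 2 * (Φ * (102 * (ρ * (8 * (W + 4) * (1 + (B + 6 * E) * L) + 8 * W ^ 2 * (1 + 6 * E * L))))) ≤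
        (1 / (W / 20)) ^ 2 * (Φ * (102 * (ρ * (48 * W * (B * L) + 56 * W ^ 2 * (E * L))))) := by gcongr
    refine a5.trans ?_
    have e3 : (1 / (W / 20)) ^ 2 * (Φ * (102 * (ρ * (48 * W * (B * L) + 56 * W ^ 2 * (E * L))))) =
        ρ * Φ * L * (40800 * (48 * B / W + 56 * E)) := by
      field_simp
      ring
    rw [e3]
    have a6 : 48 * B / W ≤ 48 * B * (η / 10 ^ 7) := by
      rw [div_le_iff₀ hWp]
      have : 1 ≤ η / 10 ^ 7 * W := by
        rw [div_mul_eq_mul_div, le_div_iff₀ (by norm_num)]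
        linarith
      calc 48 * (B : ℝ) = 48 * B * 1 := by ring
        _ ≤ 48 * B * (η / 10 ^ 7 * W) := by gcongr
        _ = _ := by ring
    have a7 : (E : ℝ) ≤ B * (η / 10 ^ 7) := by
      rw [mul_div_assoc', le_div_iff₀ (by norm_num)]
      linarith
    have a8 : 40800 * (48 * B / W + 56 * E) ≤ 2 * η / 3 * B := by
      have : 0 ≤ B * η := by positivity
      linarith
    calc ρ * Φ * L * (40800 * (48 * B / W + 56 * E)) ≤ ρ * Φ * L * (2 * η / 3 * B) := by gcongr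
      _ = _ := by ring
  calc _ ≤ (1 / (W / 20)) ^ 2 * (Φ * (102 * (ρ * (8 * (W + 4) * (1 + (B + 6 * E) * L) + 8 * W ^ 2 * (1 + 6 * E * L))))) +
        (1 / (h * (K1 * (Q : ℝ) ^ 3))) ^ 2 * (Φ * (102 * (2 * ρ * (1 + B * L)))) :=
        add_le_add (mul_le_mul_of_nonneg_left s1' (by positivity))
          (mul_le_mul_of_nonneg_left s2' (by positivity))
    _ ≤ 2 * η / 3 * (ρ * Φ * (B * L)) + η / 3 * (ρ * Φ * (B * L)) := add_le_add t1 t2
    _ = η * (ρ * Φ * (B * L)) := by ring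

end Pool.Agent.E8helper68.PJ
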