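import Pool.Agent.E8helper68.PJ.TKc

set_option autoImplicit false

/-!
# Logarithmic versions, and the coefficients after the multiplier
-/

open Finset

namespace Pool.Agent.E8helper68.PJ

open Pool.Agent.TH823.PS

/-- partial summation -/
lemma log_of_sum {a : ℕ → ℝ} {A : ℝ} (hA : 0 ≤ A) {u v : ℕ} (hu : 1 ≤ u) (huv : u ≤ v)
    (ha : ∀ m, u ≤ m → ∑ k ∈ Ioc u m, a k ≤ A * m) :
    ∑ k ∈ Ioc u v, a k / k ≤ A * (1 + Real.log ((v : ℝ) / u)) := by
  rw [abel hu huv]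
  have hv0 : (0 : ℝ) < v := by exact_mod_cast (by omega : 0 < v)
  have h1 : (∑ k ∈ Ioc u v, a k) / v ≤ A := by
    rw [div_le_iff₀ hv0]
    exact ha v huv
  have h2 : ∑ m ∈ Ico u v, (∑ k ∈ Ioc u m, a k) / ((m : ℝ) * (m + 1)) ≤ A * Real.log ((v : ℝ) / u) := by
    have h3 : ∑ m ∈ Ico u v, (∑ k ∈ Ioc u m, a k) / ((m : ℝ) * (m + 1)) ≤ ∑ m ∈ Ico u v, A * (1 / ((m : ℝ) + 1)) := by
      apply sum_le_sum
      intro m hm
      rw [mem_Ico] at hm
      have hm0 : (0 : ℝ) < m := by exact_mod_cast (by omega : 0 < m)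
      rw [div_le_iff₀ (by positivity)]
      refine (ha m hm.1).trans (le_of_eq ?_)
      field_simp
    refine h3.trans ?_
    rw [← mul_sum]
    apply mul_le_mul_of_nonneg_left _ hA
    refine le_trans (le_of_eq ?_) (harm_le hu huv)
    refine sum_nbij (fun m => m + 1) ?_ ?_ ?_ ?_
    · intro m hm; rw [mem_Ico] at hm; rw [mem_Ioc]; omega
    · intro m _ m' _ h; simp only at h; omega
    · intro k hk
      rw [mem_coe, mem_Ioc] at hk
      exact ⟨k - 1, by rw [mem_coe, mem_Ico]; omega, by simp only; omega⟩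
    · intro m _; push_cast; rfl
  linarith

lemma turan_wt_log {M : ℕ} {ρ : ℝ} {β : ℕ → ℝ} (h : Wt M ρ β) (hM : 0 < M) {P : Finset ℕ} (hP : ∀ p ∈ P, p.Prime)
    (hPM : ∀ p ∈ P, M.Coprime p) {u v : ℕ} (hu1 : 1 ≤ u) (hu : M * P.card ^ 2 ≤ u) (huv : u ≤ v) :
    ∑ k ∈ Ioc u v, β k * (om P k - WP P) ^ 2 / k ≤ ρ * (WP P + 4) * (1 + Real.log ((v : ℝ) / u)) := by
  have hρ := h.rho_nonneg hM
  have hW := WP_nonneg P
  apply log_of_sum (by positivity) hu1 huv
  intro m hm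
  refine le_trans ?_ ((turan_wt h hM hP hPM (hu.trans hm)).trans (le_of_eq (by ring)))
  apply sum_le_sum_of_subset_of_nonneg
  · intro k hk
    rw [mem_Ioc] at hk
    rw [mem_Icc]
    omega
  · intro k _ _
    exact mul_nonneg (h.nn k) (sq_nonneg _)

lemma wt_log {M : ℕ} {ρ : ℝ} {β : ℕ → ℝ} (h : Wt M ρ β) (hM : 0 < M) {u v : ℕ} (hu : M ≤ u) (huv : u ≤ v) :
    ∑ k ∈ Ioc u v, β k / k ≤ 2 * ρ * (1 + Real.log ((v : ℝ) / u)) := by
  have hρ := h.rho_nonneg hM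
  apply log_of_sum (by positivity) (by omega) huv
  intro m hm
  have h1 : ∑ k ∈ Ioc u m, β k ≤ ∑ k ∈ Icc 1 m, β k := by
    apply sum_le_sum_of_subset_of_nonneg
    · intro k hk
      rw [mem_Ioc] at hk
      rw [mem_Icc]
      omega
    · intro k _ _
      exact h.nn k
  refine h1.trans ((sum_wt h hM m).trans ?_)
  have h2 : (M : ℝ) ≤ m := by exact_mod_cast hu.trans hm
  have h3 := mul_le_mul_of_nonneg_left h2 hρ
  linarith

/-- `W 1_{k ∈ S} - #{p ∣ k : k / p ∈ S}` -/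
noncomputable def Dl (P S : Finset ℕ) (k : ℕ) : ℝ :=
  (if k ∈ S then WP P else 0) - ∑ p ∈ P, if p ∣ k ∧ k / p ∈ S then (1 : ℝ) else 0

/-- the indicator of the two boundary ranges -/
noncomputable def bd (M₀ z N k : ℕ) : ℝ := if k ≤ M₀ * z ∨ N < k then 1 else 0

lemma bd_nonneg (M₀ z N k : ℕ) : 0 ≤ bd M₀ z N k := by unfold bd; split_ifs <;> norm_num

lemma Dl_abs {P : Finset ℕ} {z M₀ N k : ℕ} (hz : ∀ p ∈ P, 0 < p ∧ p ≤ z) (hk : M₀ < k) :
    |Dl P (Ioc M₀ N) k| ≤ 2 * |om P k - WP P| + WP P * bd M₀ z N k := by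
  have hW := WP_nonneg P
  set T : ℝ := ∑ p ∈ P, if p ∣ k ∧ k / p ∈ Ioc M₀ N then (1 : ℝ) else 0 with hT
  have hT0 : 0 ≤ T := sum_nonneg fun p _ => by split_ifs <;> norm_num
  have hTom : T ≤ om P k := by
    unfold om
    apply sum_le_sum
    intro p _
    by_cases h1 : p ∣ k
    · rw [if_pos h1]; split_ifs <;> norm_num
    · rw [if_neg h1, if_neg (fun h => h1 h.1)]
  have hdiv : ∀ p ∈ P, p ∣ k → k ≤ N → M₀ * z < k → k / p ∈ Ioc M₀ N := by
    intro p hp hd hkN hk2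
    rw [mem_Ioc]
    constructor
    · rw [Nat.lt_div_iff_mul_lt' hd]
      calc p * M₀ ≤ z * M₀ := Nat.mul_le_mul_right _ (hz p hp).2
        _ = M₀ * z := mul_comm _ _
        _ < k := hk2
    · exact (Nat.div_le_self _ _).trans hkN
  unfold Dl
  rw [← hT]
  by_cases hkN : k ≤ N
  · rw [if_pos (by rw [mem_Ioc]; exact ⟨hk, hkN⟩)]
    by_cases hk2 : M₀ * z < k
    · have hTe : T = om P k := by
        rw [hT]
        unfold om
        apply sum_congr rfl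
        intro p hp
        by_cases h1 : p ∣ k
        · rw [if_pos h1, if_pos ⟨h1, hdiv p hp h1 hkN hk2⟩]
        · rw [if_neg h1, if_neg (fun h => h1 h.1)]
      have hb : bd M₀ z N k = 0 := by
        unfold bd; rw [if_neg]; push Not; omega
      rw [hTe, hb, mul_zero, add_zero, abs_sub_comm]
      have := abs_nonneg (om P k - WP P)
      linarith
    · have hb : bd M₀ z N k = 1 := by unfold bd; rw [if_pos]; left; omega
      rw [hb, mul_one, abs_le]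
      have h1 := le_abs_self (om P k - WP P)
      have h2 := neg_abs_le (om P k - WP P)
      have h3 := abs_nonneg (om P k - WP P)
      constructor
      · linarith
      · linarith
  · have hb : bd M₀ z N k = 1 := by unfold bd; rw [if_pos]; right; omega
    rw [if_neg (by rw [mem_Ioc]; omega), hb, mul_one, abs_le]
    have h1 := le_abs_self (om P k - WP P)
    have h2 := neg_abs_le (om P k - WP P)
    have h3 := abs_nonneg (om P k - WP P)
    constructor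
    · linarith
    · linarith

lemma Dl_sq {P : Finset ℕ} {z M₀ N k : ℕ} (hz : ∀ p ∈ P, 0 < p ∧ p ≤ z) (hk : M₀ < k) :
    Dl P (Ioc M₀ N) k ^ 2 ≤ 8 * (om P k - WP P) ^ 2 + 2 * WP P ^ 2 * bd M₀ z N k := by
  have h1 := Dl_abs (N := N) hz hk
  have h2 : Dl P (Ioc M₀ N) k ^ 2 ≤ (2 * |om P k - WP P| + WP P * bd M₀ z N k) ^ 2 := by
    rw [← sq_abs (Dl P (Ioc M₀ N) k)]
    exact pow_le_pow_left₀ (abs_nonneg _) h1 2
  have h3 : bd M₀ z N k ^ 2 = bd M₀ z N k := by unfold bd; split_ifs <;> norm_num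
  have h4 : (WP P * bd M₀ z N k) ^ 2 = WP P ^ 2 * bd M₀ z N k := by rw [mul_pow, h3]
  have h5 : |om P k - WP P| ^ 2 = (om P k - WP P) ^ 2 := sq_abs _
  nlinarith [sq_nonneg (2 * |om P k - WP P| - WP P * bd M₀ z N k)]

/-- the logarithmic sum of the squares -/
lemma Dl_log {M : ℕ} {ρ : ℝ} {β : ℕ → ℝ} (h : Wt M ρ β) (hM : 0 < M) {P : Finset ℕ} (hP : ∀ p ∈ P, p.Prime)
    (hPM : ∀ p ∈ P, M.Coprime p) {z M₀ N : ℕ} (hz1 : 1 ≤ z) (hz : ∀ p ∈ P, p ≤ z) (hM0 : M ≤ M₀)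
    (hcard : M * P.card ^ 2 ≤ M₀) (hMN : M₀ ≤ N) :
    ∑ k ∈ Ioc M₀ (N * z), β k * Dl P (Ioc M₀ N) k ^ 2 / k ≤
      ρ * (8 * (WP P + 4) * (1 + Real.log ((N * z : ℕ) : ℝ)) + 8 * WP P ^ 2 * (1 + Real.log z)) := by
  have hρ := h.rho_nonneg hM
  have hW := WP_nonneg P
  have hM01 : 1 ≤ M₀ := by omega
  have hNz : M₀ ≤ N * z := hMN.trans (Nat.le_mul_of_pos_right N hz1)
  have hr : ∀ u v : ℕ, 1 ≤ u → u ≤ v → Real.log ((v : ℝ) / u) ≤ Real.log v := by
    intro u v hu huv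
    have hu0 : (1 : ℝ) ≤ u := by exact_mod_cast hu
    have hv0 : (0 : ℝ) < v := by exact_mod_cast (by omega : 0 < v)
    apply Real.log_le_log (by positivity)
    exact div_le_self hv0.le hu0
  have h1 : ∀ k ∈ Ioc M₀ (N * z), β k * Dl P (Ioc M₀ N) k ^ 2 / k ≤
      8 * (β k * (om P k - WP P) ^ 2 / k) + 2 * WP P ^ 2 * (if k ≤ M₀ * z ∨ N < k then β k / k else 0) := by
    intro k hk
    rw [mem_Ioc] at hk
    have hk0 : (0 : ℝ) < k := by exact_mod_cast (by omega : 0 < k)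
    have h2 := Dl_sq (N := N) (fun p hp => ⟨(hP p hp).pos, hz p hp⟩) hk.1
    have h3 := mul_le_mul_of_nonneg_left h2 (h.nn k)
    rw [div_le_iff₀ hk0]
    refine h3.trans (le_of_eq ?_)
    unfold bd
    split_ifs
    · field_simp
    · field_simp
      ring
  refine (sum_le_sum h1).trans ?_
  rw [sum_add_distrib, ← mul_sum, ← mul_sum]
  have t1 := turan_wt_log h hM hP hPM hM01 hcard hNz
  have t2 : ∑ k ∈ Ioc M₀ (N * z), (if k ≤ M₀ * z ∨ N < k then β k / k else 0) ≤ 4 * ρ * (1 + Real.log z) := by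
    rw [← sum_filter]
    have h2 : (Ioc M₀ (N * z)).filter (fun k => k ≤ M₀ * z ∨ N < k) ⊆ Ioc M₀ (M₀ * z) ∪ Ioc N (N * z) := by
      intro k hk
      simp only [mem_filter, mem_Ioc, mem_union] at hk ⊢
      rcases hk.2 with h3 | h3
      · left; omega
      · right; omega
    have hnn : ∀ k : ℕ, 0 ≤ β k / k := fun k => div_nonneg (h.nn k) (Nat.cast_nonneg k)
    refine (sum_le_sum_of_subset_of_nonneg h2 fun k _ _ => hnn k).trans ?_
    refine (sum_union_inter (s₁ := Ioc M₀ (M₀ * z)) (s₂ := Ioc N (N * z)) (f := fun k => β k / k) ▸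
      le_add_of_nonneg_right (sum_nonneg fun k _ => hnn k)).trans ?_
    have a1 := wt_log h hM hM0 (Nat.le_mul_of_pos_right M₀ hz1)
    have a2 := wt_log h hM (hM0.trans hMN) (Nat.le_mul_of_pos_right N hz1)
    have e1 : ((M₀ * z : ℕ) : ℝ) / M₀ = z := by
      have : (M₀ : ℝ) ≠ 0 := by exact_mod_cast (by omega : M₀ ≠ 0)
      push_cast; field_simp
    have e2 : ((N * z : ℕ) : ℝ) / N = z := by
      have : (N : ℝ) ≠ 0 := by exact_mod_cast (by omega : N ≠ 0)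
      push_cast; field_simp
    rw [e1] at a1
    rw [e2] at a2
    linarith
  have t3 := hr M₀ (N * z) hM01 hNz
  have t4 : ρ * (WP P + 4) * (1 + Real.log (((N * z : ℕ) : ℝ) / M₀)) ≤
      ρ * (WP P + 4) * (1 + Real.log ((N * z : ℕ) : ℝ)) := by
    apply mul_le_mul_of_nonneg_left _ (by positivity)
    linarith
  have t5 := mul_le_mul_of_nonneg_left t2 (by positivity : 0 ≤ 2 * WP P ^ 2)
  linarith

/-- the sum of the squares up to `X` -/
lemma Dl_sum {M : ℕ} {ρ : ℝ} {β : ℕ → ℝ} (h : Wt M ρ β) (hM : 0 < M) {P : Finset ℕ} (hP : ∀ p ∈ P, p.Prime)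
    (hPM : ∀ p ∈ P, M.Coprime p) {z M₀ N X : ℕ} (hz : ∀ p ∈ P, p ≤ z)
    (hcard : M * P.card ^ 2 ≤ X) (hXN : X ≤ N) :
    ∑ k ∈ Ioc M₀ X, β k * Dl P (Ioc M₀ N) k ^ 2 ≤
      ρ * (8 * (WP P + 4) * X + 2 * WP P ^ 2 * (M₀ * z + M)) := by
  have hρ := h.rho_nonneg hM
  have h1 : ∀ k ∈ Ioc M₀ X, β k * Dl P (Ioc M₀ N) k ^ 2 ≤
      8 * (β k * (om P k - WP P) ^ 2) + 2 * WP P ^ 2 * (if k ≤ M₀ * z then β k else 0) := by
    intro k hk
    rw [mem_Ioc] at hk
    have h2 := Dl_sq (N := N) (fun p hp => ⟨(hP p hp).pos, hz p hp⟩) hk.1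
    have h3 := mul_le_mul_of_nonneg_left h2 (h.nn k)
    refine h3.trans (le_of_eq ?_)
    have e : (k ≤ M₀ * z ∨ N < k) ↔ k ≤ M₀ * z := by omega
    unfold bd
    simp only [e]
    split_ifs <;> ring
  refine (sum_le_sum h1).trans ?_
  rw [sum_add_distrib, ← mul_sum, ← mul_sum]
  have t1 : ∑ k ∈ Ioc M₀ X, β k * (om P k - WP P) ^ 2 ≤ ρ * ((WP P + 4) * X) := by
    refine le_trans ?_ (turan_wt h hM hP hPM hcard)
    apply sum_le_sum_of_subset_of_nonneg
    · intro k hk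
      rw [mem_Ioc] at hk
      rw [mem_Icc]
      omega
    · intro k _ _
      exact mul_nonneg (h.nn k) (sq_nonneg _)
  have t2 : ∑ k ∈ Ioc M₀ X, (if k ≤ M₀ * z then β k else 0) ≤ ρ * (M₀ * z + M) := by
    rw [← sum_filter]
    have h2 := sum_wt h hM (M₀ * z)
    push_cast at h2
    refine le_trans ?_ h2
    apply sum_le_sum_of_subset_of_nonneg
    · intro k hk
      rw [mem_filter, mem_Ioc] at hk
      rw [mem_Icc]
      omega
    · intro k _ _
      exact h.nn k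
  have t5 := mul_le_mul_of_nonneg_left t2 (by positivity : 0 ≤ 2 * WP P ^ 2)
  linarith

end Pool.Agent.E8helper68.PJ
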